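import Pool.Agent.H623.RB.I

/-!
# Random and adversarial deletion of vertices in the Collatz graph on `[-N, N]`: a threshold

Let `G_N` be the finite graph with the vertices `-N, ..., N` in which `x` is joined to `C x` whenever
`|C x| ≤ N`. About `2 κ N` of its vertices are in giant components (components with at least `c N` elements), `κ`
a constant between `1/3` and `2/3`. How stable are they?

* (threshold) delete every vertex `v` with the probability `p |v|`, independently, `p` nonincreasing. If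
  `∑ p n / n` converges then the giant components keep their total mass `(2 κ + o(1)) N` in probability; if
  the series diverges then for every `c > 0`, with probability tending to `1`, no component with at least `c N`
  elements is left. For instance `p n = 1 / log n` destroys all the giant components,
  `p n = (log n) ^ (-1.01)` destroys (asymptotically) nothing;
* (attacks) the deletion of the `2 M + 1` vertices of absolute value at most `M` leaves only components with
  at most `K N / (log M) ^ B` elements (every `B`, `K = K B`), but no deletion of `M` vertices can leave only components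
  with less than `N / M ^ (1 + η)` elements;
* (thin sets) the deletion of an arbitrary set of integers with at most `X exp (-(log X) ^ θ)` elements
  of absolute value at most `X` does not change the mass of the giant components;
* the question Q1 has a positive answer if and only if for all `ε > 0` there is `M` such that after the random
  deletion (by any fixed `p` with a convergent series) of vertices of absolute value at least `M` the components of
  `1, -1, -5, -17` have with probability at least `1 - ε` together at least `(2 κ - ε) N` elements; the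
  conjecture of Collatz says the same with `κ` and the component of `1`.

Author: helper623. Used from the starting library (Pool.Graph.R_seed8): the densities of the classes,
the theorem on thin sets, the theorem that almost all pairs of trajectories are disjoint down to bounded
values.
-/

set_option autoImplicit false

namespace Pool.Agent.Results.MP_d02c56_nt.DeletionThreshold

open Filter Topology

/-- The Collatz map on the integers. -/
def C (x : ℤ) : ℤ := if x % 2 = 0 then x / 2 else 3 * x + 1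

/-- The vertices of the graph `G_N - D`: the integers of absolute value at most `N` outside of `D`. -/
def Left (N : ℕ) (D : Set ℤ) : Set ℤ := {v | |v| ≤ N ∧ v ∉ D}

/-- The edges of the graph `G_N - D`: `x` is joined to `C x` if both are vertices. -/
def Edge (N : ℕ) (D : Set ℤ) (x y : ℤ) : Prop := x ∈ Left N D ∧ y ∈ Left N D ∧ y = C x

/-- The component of `x` in the graph `G_N - D` (empty if `x` is not a vertex). -/
def Comp (N : ℕ) (D : Set ℤ) (x : ℤ) : Set ℤ := {y | y ∈ Left N D ∧ Relation.EqvGen (Edge N D) x y}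

/-- The number of the integers `x`, `|x| ≤ N`, in components of `G_N - D` with at least `t` elements. -/
noncomputable def mass (N : ℕ) (D : Set ℤ) (t : ℝ) : ℝ := {x : ℤ | |x| ≤ N ∧ t ≤ (Comp N D x).ncard}.ncard

open scoped Classical in
/-- The probability of the event `E D` for the random set `D` of integers which contains every integer `v` with
`|v| ≤ N` with the probability `p |v|`, independently of each other. -/
noncomputable def Prob (p : ℕ → ℝ) (N : ℕ) (E : Finset ℤ → Prop) : ℝ :=
  ∑ D ∈ (Finset.Icc (-(N : ℤ)) N).powerset.filter E,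
    (∏ v ∈ D, p v.natAbs) * ∏ v ∈ Finset.Icc (-(N : ℤ)) N \ D, (1 - p v.natAbs)

/-- The elements of `D` of absolute value at least `M`. -/
def Above (M : ℕ) (D : Finset ℤ) : Set ℤ := {v | v ∈ D ∧ (M : ℤ) ≤ |v|}

/-- The mean over the words `w` of `K + 1` letters of the least of the ratios
`2 ^ k / 3 ^ (number of letters `true` among `w 0, ..., w k`)`, `0 ≤ k ≤ K`. -/
noncomputable def meanShare (K : ℕ) : ℝ :=
  (∑ w : Fin (K + 1) → Bool, Finset.univ.inf' Finset.univ_nonempty (fun k : Fin (K + 1) =>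
    (2 : ℝ) ^ (k : ℕ) / 3 ^ ((Finset.univ : Finset (Fin (K + 1))).filter (fun i => i ≤ k ∧ w i = true)).card))
    / 2 ^ (K + 1)

/-- The union of the five known cycles. -/
def Known : Finset ℤ := {1, 4, 2, -1, -2, -5, -14, -7, -20, -10, -17, -50, -25, -74, -37, -110,
  -55, -164, -82, -41, -122, -61, -182, -91, -272, -136, -68, -34, 0}

/-- One element of each of the known cycles different from `{0}`. -/
def Reps : Finset ℤ := {1, -1, -5, -17}

/-- The class of `x`: the integers whose trajectory has a term in common with the trajectory of `x`. -/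
def Cls (x : ℤ) : Set ℤ := {y | ∃ i j : ℕ, C^[i] x = C^[j] y}

/-! ### proofs -/

open Pool.Agent.H623 (TG.C_iter_sign)

theorem closed_iter {S : Finset ℤ} (h : ∀ x ∈ S, C x ∈ S) : ∀ (k : ℕ) (x : ℤ), x ∈ S → C^[k] x ∈ S
  | 0, x, hx => hx
  | k + 1, x, hx => by rw [Function.iterate_succ_apply']; exact h _ (closed_iter h k x hx)

theorem sep {S S' : Finset ℤ} (h : ∀ x ∈ S, C x ∈ S) (h' : ∀ x ∈ S', C x ∈ S') (hd : ∀ x ∈ S, x ∉ S')
    {x y : ℤ} (hx : x ∈ S) (hy : y ∈ S') : y ∉ Cls x := by
  rintro ⟨i, j, e⟩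
  exact hd _ (closed_iter h i x hx) (e ▸ closed_iter h' j y hy)

def Z1 : Finset ℤ := {1, 4, 2}
def Z2 : Finset ℤ := {-1, -2}
def Z3 : Finset ℤ := {-5, -14, -7, -20, -10}
def Z4 : Finset ℤ := {-17, -50, -25, -74, -37, -110,
  -55, -164, -82, -41, -122, -61, -182, -91, -272, -136, -68, -34}

theorem four_cls : ∀ x ∈ Reps, ∀ y ∈ Reps, y ∈ Cls x → x = y := by
  have c1 : ∀ x ∈ Z1, C x ∈ Z1 := by decide
  have c2 : ∀ x ∈ Z2, C x ∈ Z2 := by decide
  have c3 : ∀ x ∈ Z3, C x ∈ Z3 := by decide
  have c4 : ∀ x ∈ Z4, C x ∈ Z4 := by decide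
  intro x hx y hy h
  unfold Reps at hx hy
  simp only [Finset.mem_insert, Finset.mem_singleton] at hx hy
  rcases hx with rfl | rfl | rfl | rfl <;> rcases hy with rfl | rfl | rfl | rfl
  · rfl
  · exact absurd h (sep c1 c2 (by decide) (by decide) (by decide))
  · exact absurd h (sep c1 c3 (by decide) (by decide) (by decide))
  · exact absurd h (sep c1 c4 (by decide) (by decide) (by decide))
  · exact absurd h (sep c2 c1 (by decide) (by decide) (by decide))
  · rfl
  · exact absurd h (sep c2 c3 (by decide) (by decide) (by decide))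
  · exact absurd h (sep c2 c4 (by decide) (by decide) (by decide))
  · exact absurd h (sep c3 c1 (by decide) (by decide) (by decide))
  · exact absurd h (sep c3 c2 (by decide) (by decide) (by decide))
  · rfl
  · exact absurd h (sep c3 c4 (by decide) (by decide) (by decide))
  · exact absurd h (sep c4 c1 (by decide) (by decide) (by decide))
  · exact absurd h (sep c4 c2 (by decide) (by decide) (by decide))
  · exact absurd h (sep c4 c3 (by decide) (by decide) (by decide))
  · rfl

theorem known_closed : ∀ x ∈ Known, C x ∈ Known := by decide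

theorem known_reach : ∀ x ∈ Known, x = 0 ∨ ∃ c ∈ Reps, ∃ k < 20, C^[k] c = x := by decide

theorem known_four : ∀ c ∈ Reps, c ∈ Known := by decide

theorem cls_of_reach {x : ℤ} (hx : x ≠ 0) (h : ∃ k, C^[k] x ∈ Known) : ∃ c ∈ Reps, x ∈ Cls c := by
  obtain ⟨k, hk⟩ := h
  rcases known_reach _ hk with h0 | ⟨c, hc, j, _, hj⟩
  · exfalso
    obtain ⟨h1, h2⟩ := Pool.Agent.H623.TG.sign_side hx
    have h3 := TG.C_iter_sign h1 h2 k
    have h4 : Pool.Agent.H623.TG.C^[k] x = 0 := h0
    rw [h4] at h3
    simp at h3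
  · exact ⟨c, hc, j, k, hj⟩

theorem reach_of_cls {x c : ℤ} (hc : c ∈ Known) (h : x ∈ Cls c) : ∃ k, C^[k] x ∈ Known := by
  obtain ⟨i, j, e⟩ := h
  exact ⟨j, e ▸ closed_iter known_closed i c hc⟩

theorem reach_one {x : ℤ} (h : x ∈ Cls 1) : ∃ k, C^[k] x = 1 := by
  obtain ⟨i, j, e⟩ := h
  have h1 := closed_iter (S := Z1) (by decide) i 1 (by decide)
  rw [e] at h1
  unfold Z1 at h1
  simp only [Finset.mem_insert, Finset.mem_singleton] at h1
  rcases h1 with h | h | h
  · exact ⟨j, h⟩
  · refine ⟨2 + j, ?_⟩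
    rw [Function.iterate_add_apply, h]; decide
  · refine ⟨1 + j, ?_⟩
    rw [Function.iterate_add_apply, h]; decide


theorem comp_eq (N : ℕ) (D : Set ℤ) (x : ℤ) : Comp N D x = Pool.Agent.H623.RB.CompW (Pool.Agent.H623.RB.V N D) x := rfl

theorem prob_eq (p : ℕ → ℝ) (N : ℕ) (E : Finset ℤ → Prop) :
    Prob p N E = Pool.Agent.H623.RB.Pr (Pool.Agent.H623.RB.Sv N) (fun v => p v.natAbs) E := rfl

theorem above_eq (M : ℕ) (D : Finset ℤ) : Above M D = Pool.Agent.H623.RB.Del M D := rfl

theorem mass_eq (N : ℕ) (D : Set ℤ) (t : ℝ) : mass N D t = (Pool.Agent.H623.RB.Lg N D t).ncard := rfl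

/-- There is a constant `1/3 ≤ κ ≤ 2/3`, the limit of the means `meanShare K`, such that:

for every nonincreasing `p : ℕ → [0, 1]` and the deletion of every vertex `v` of `G_N` with the probability `p |v|`,
independently:

1. if `∑ p n / n` converges then for every `ε > 0` there is `c > 0` such that for all large `N`, with
   probability at least `1 - ε`, at least `(2 κ - ε) N` vertices are in components with at least `c N` elements;
2. if `∑ p n / n` diverges then for every `c > 0` the probability that a component with at least `c N`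
   elements is left tends to `0`;

for arbitrary deletions:

3. for every `ε > 0` there is `M` such that for all large `N` and every set `D` at most `(2 κ + ε) N` vertices of
   `G_N - D` are in components with more than `M` elements;
4. for every `B` there is `K` such that for all `M ≥ 2` and `N` all components that are left after the deletion of the
   integers of absolute value at most `M` have at most `K N / (log M) ^ B` elements;
5. for every `η > 0` and `M ≥ M₀ η`, for all large `N` every deletion of at most `M` vertices leaves a component with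
   at least `N / M ^ (1 + η)` elements;
6. if `D` is a set of integers with at most `X exp (-(log X) ^ θ)` elements of absolute value at most `X` for all
   large `X`, `θ > 0`, then for every `ε > 0` there is `c > 0` such that for all large `N` at least `(2 κ - ε) N` vertices of
   `G_N - D` are in components with at least `c N` elements;

and for every nonincreasing `p : ℕ → [0, 1]` for which `∑ p n / n` converges:

7. all trajectories on the integers reach one of the five known cycles if and only if for every `ε > 0` there is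
   `M` such that for all large `N`, after the random deletion of the vertices `v`, `|v| ≥ M`, with the probability
   `p |v|`, independently, with probability at least `1 - ε` the components of `1, -1, -5, -17` have
   together at least `(2 κ - ε) N` elements;
8. all trajectories on the positive integers reach `1` if and only if the same holds with the component of `1` and
   `(κ - ε) N`. -/
theorem result : ∃ κ : ℝ, Tendsto meanShare atTop (𝓝 κ) ∧ 1 / 3 ≤ κ ∧ κ ≤ 2 / 3 ∧
    (∀ p : ℕ → ℝ, Antitone p → (∀ n, 0 ≤ p n ∧ p n ≤ 1) → Summable (fun n : ℕ => p n / n) → ∀ ε : ℝ, 0 < ε →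
      ∃ c : ℝ, 0 < c ∧ ∀ᶠ N : ℕ in atTop, 1 - ε ≤ Prob p N (fun D => (2 * κ - ε) * N ≤ mass N D (c * N))) ∧
    (∀ p : ℕ → ℝ, Antitone p → (∀ n, 0 ≤ p n ∧ p n ≤ 1) → ¬ Summable (fun n : ℕ => p n / n) → ∀ c : ℝ, 0 < c →
      Tendsto (fun N : ℕ => Prob p N (fun D => ∃ x : ℤ, c * N ≤ ((Comp N D x).ncard : ℝ))) atTop (𝓝 0)) ∧
    (∀ ε : ℝ, 0 < ε → ∃ M : ℕ, ∀ᶠ N : ℕ in atTop, ∀ D : Set ℤ,
      ({x : ℤ | |x| ≤ N ∧ M < (Comp N D x).ncard}.ncard : ℝ) ≤ (2 * κ + ε) * N) ∧
    (∀ B : ℕ, ∃ K : ℝ, 0 < K ∧ ∀ M : ℕ, 2 ≤ M → ∀ (N : ℕ) (x : ℤ),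
      ((Comp N {v : ℤ | |v| ≤ M} x).ncard : ℝ) ≤ K * N / (Real.log M) ^ B) ∧
    (∀ η : ℝ, 0 < η → ∃ M₀ : ℕ, ∀ M : ℕ, M₀ ≤ M → ∀ᶠ N : ℕ in atTop, ∀ D : Finset ℤ, D.card ≤ M →
      ∃ x : ℤ, (N : ℝ) / (M : ℝ) ^ (1 + η) ≤ ((Comp N D x).ncard : ℝ)) ∧
    (∀ (D : Set ℤ) (θ : ℝ), 0 < θ →
      (∀ᶠ X : ℝ in atTop, ({v : ℤ | v ∈ D ∧ |(v : ℝ)| ≤ X}.ncard : ℝ) ≤ X * Real.exp (-(Real.log X) ^ θ)) →
      ∀ ε : ℝ, 0 < ε → ∃ c : ℝ, 0 < c ∧ ∀ᶠ N : ℕ in atTop, (2 * κ - ε) * N ≤ mass N D (c * N)) ∧
    (∀ p : ℕ → ℝ, Antitone p → (∀ n, 0 ≤ p n ∧ p n ≤ 1) → Summable (fun n : ℕ => p n / n) →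
      ((∀ x : ℤ, ∃ k : ℕ, C^[k] x ∈ Known) ↔ ∀ ε : ℝ, 0 < ε → ∃ M : ℕ, ∀ᶠ N : ℕ in atTop,
        1 - ε ≤ Prob p N (fun D => (2 * κ - ε) * N ≤ ({x : ℤ | ∃ c ∈ Reps, x ∈ Comp N (Above M D) c}.ncard : ℝ))) ∧
      ((∀ x : ℤ, 0 < x → ∃ k : ℕ, C^[k] x = 1) ↔ ∀ ε : ℝ, 0 < ε → ∃ M : ℕ, ∀ᶠ N : ℕ in atTop,
        1 - ε ≤ Prob p N (fun D => (κ - ε) * N ≤ ((Comp N (Above M D) 1).ncard : ℝ)))) := by
  classical
  obtain ⟨κ, hκ, hκ1, hκ2, -⟩ := Pool.Agent.H623.TG.kap_lim
  obtain ⟨δ, hδ⟩ := Pool.Agent.H623.TG.dens_fun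
  have hκ0 : 0 < κ := by linarith
  have hpos1 : (0 : ℤ) < 1 * 1 := by norm_num
  -- densities
  have F1 : ∀ c ∈ ({1} : Finset ℤ), Pool.Agent.H499R2.ND.HD 1 (Cls c) (δ c) := by
    intro c hc
    rw [Finset.mem_singleton] at hc
    subst hc
    exact (hδ 1 (by norm_num)).2.1
  have F2 : ∀ c ∈ ({-1, -5, -17} : Finset ℤ), Pool.Agent.H499R2.ND.HD (-1) (Cls c) (δ c) := by
    intro c hc
    simp only [Finset.mem_insert, Finset.mem_singleton] at hc
    rcases hc with rfl | rfl | rfl
    · exact (hδ (-1) (by norm_num)).2.1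
    · exact (hδ (-5) (by norm_num)).2.1
    · exact (hδ (-17) (by norm_num)).2.1
  have hsum4 : ∑ c ∈ Reps, δ c = δ 1 + ∑ c ∈ ({-1, -5, -17} : Finset ℤ), δ c := by
    have e : Reps = insert 1 ({-1, -5, -17} : Finset ℤ) := rfl
    rw [e, Finset.sum_insert (by decide)]
  have hne : ∀ c ∈ Reps, c ≠ 0 := by decide
  have hpw1 : ∀ x ∈ ({1} : Finset ℤ), ∀ y ∈ ({1} : Finset ℤ), y ∈ Cls x → x = y := by
    intro x hx y hy _
    rw [Finset.mem_singleton] at hx hy
    rw [hx, hy]
  have hsub2 : ∀ x ∈ ({-1, -5, -17} : Finset ℤ), x ∈ Reps := by decide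
  have hpw2 : ∀ x ∈ ({-1, -5, -17} : Finset ℤ), ∀ y ∈ ({-1, -5, -17} : Finset ℤ), y ∈ Cls x → x = y :=
    fun x hx y hy h => four_cls x (hsub2 x hx) y (hsub2 y hy) h
  obtain ⟨s1, s1'⟩ := Pool.Agent.H623.DG.sum_dens (s := 1) (Or.inl rfl) (δ := δ) {1} F1 hpw1
  obtain ⟨s2, s2'⟩ := Pool.Agent.H623.DG.sum_dens (s := -1) (Or.inr rfl) (δ := δ) {-1, -5, -17} F2 hpw2
  rw [Finset.sum_singleton] at s1 s1'
  -- an integer outside of the known classes
  have extra1 : ∀ x0 : ℤ, 0 < x0 → x0 ∉ Cls 1 → δ x0 + δ 1 ≤ 1 := by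
    intro x0 hx0 hn
    have hx1 : x0 ≠ 1 := fun h => hn (h ▸ ⟨0, 0, rfl⟩)
    have h1 := (Pool.Agent.H623.DG.sum_dens (s := 1) (Or.inl rfl) (δ := δ) {x0, 1} (by
      intro c hc
      rw [Finset.mem_insert, Finset.mem_singleton] at hc
      rcases hc with rfl | rfl
      · have h2 := (hδ c hx0.ne').2.1
        rwa [Int.sign_eq_one_of_pos hx0] at h2
      · exact (hδ 1 (by norm_num)).2.1) (by
      intro x hx y hy hxy
      rw [Finset.mem_insert, Finset.mem_singleton] at hx hy
      rcases hx with rfl | rfl <;> rcases hy with rfl | rfl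
      · rfl
      · exact absurd (Pool.Agent.H623.TG.Cls_symm hxy) hn
      · exact absurd hxy hn
      · rfl)).1
    rw [Finset.sum_insert (by rw [Finset.mem_singleton]; exact hx1), Finset.sum_singleton] at h1
    exact h1
  have extra2 : ∀ x0 : ℤ, x0 < 0 → (∀ c ∈ ({-1, -5, -17} : Finset ℤ), x0 ∉ Cls c) →
      δ x0 + ∑ c ∈ ({-1, -5, -17} : Finset ℤ), δ c ≤ 1 := by
    intro x0 hx0 hn
    have hx1 : x0 ∉ ({-1, -5, -17} : Finset ℤ) := fun h => hn x0 h ⟨0, 0, rfl⟩
    have h1 := (Pool.Agent.H623.DG.sum_dens (s := -1) (Or.inr rfl) (δ := δ) (insert x0 {-1, -5, -17}) (by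
      intro c hc
      rw [Finset.mem_insert] at hc
      rcases hc with rfl | hc
      · have h2 := (hδ c hx0.ne).2.1
        rwa [Int.sign_eq_neg_one_of_neg hx0] at h2
      · exact F2 c hc) (by
      intro x hx y hy hxy
      rw [Finset.mem_insert] at hx hy
      rcases hx with rfl | hx <;> rcases hy with rfl | hy
      · rfl
      · exact absurd (Pool.Agent.H623.TG.Cls_symm hxy) (hn y hy)
      · exact absurd hxy (hn x hx)
      · exact hpw2 x hx y hy hxy)).1
    rw [Finset.sum_insert hx1] at h1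
    exact h1
  refine ⟨κ, ?_, hκ1, hκ2, ?_, ?_, ?_, ?_, ?_, ?_, ?_⟩
  · have h1 := (tendsto_add_atTop_iff_nat 1).2 hκ
    refine h1.congr fun K => ?_
    unfold Pool.Agent.H623.TG.kap meanShare
    congr 1
    exact Finset.sum_congr rfl fun w _ => Pool.Agent.H623.TG.mn_inf w
  · intro p hp h01 hs ε hε
    exact Pool.Agent.H623.RB.part1 hκ hp (fun n => (h01 n).1) (fun n => (h01 n).2) hs hε
  · intro p hp h01 hs c hc
    exact Pool.Agent.H623.RB.part2 hp (fun n => (h01 n).1) (fun n => (h01 n).2) hs hc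
  · intro ε hε
    exact Pool.Agent.H623.RB.part3 hκ hε
  · exact fun B => Pool.Agent.H623.RB.attack B
  · exact fun η hη => Pool.Agent.H623.RB.part6 hκ hκ1 hη
  · exact fun D θ hθ hD ε hε => Pool.Agent.H623.RB.part5 hκ hθ hD hε
  · intro p hp h01 hs
    have h0 : ∀ n, 0 ≤ p n := fun n => (h01 n).1
    have h1 : ∀ n, p n ≤ 1 := fun n => (h01 n).2
    have hq0 : ∀ v : ℤ, 0 ≤ p v.natAbs := fun v => h0 _
    have hq1 : ∀ v : ℤ, p v.natAbs ≤ 1 := fun v => h1 _
    refine ⟨⟨?_, ?_⟩, ⟨?_, ?_⟩⟩
    · intro hall ε hε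
      have hF : ∀ s : ℤ, (s = 1 ∨ s = -1) → ∀ x : ℤ, 0 < s * x → ∃ c ∈ Reps, x ∈ Pool.Agent.H623.TG.Cls c := by
        intro s _ x hx
        exact cls_of_reach (by rintro rfl; simp at hx) (hall x)
      obtain ⟨M1, H1⟩ := Pool.Agent.H623.RB.link (s := 1) (Or.inl rfl) hκ hp h0 h1 hs Reps (hF 1 (Or.inl rfl)) (half_pos hε)
      obtain ⟨M2, H2⟩ := Pool.Agent.H623.RB.link (s := -1) (Or.inr rfl) hκ hp h0 h1 hs Reps (hF (-1) (Or.inr rfl)) (half_pos hε)
      refine ⟨max M1 M2, ?_⟩
      filter_upwards [H1 (max M1 M2) (le_max_left _ _), H2 (max M1 M2) (le_max_right _ _)] with N a1 a2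
      rw [prob_eq]
      have h3 := Pool.Agent.H623.RB.Pr_or (S := Pool.Agent.H623.RB.Sv N) hq0 hq1 (fun D => ¬ ((κ - ε / 2) * N ≤
        (((Pool.Agent.H623.RB.Sv N).filter (fun x => 0 < (1 : ℤ) * x ∧ ∃ c ∈ Reps, x ∈ Pool.Agent.H623.RB.CompW
          (Pool.Agent.H623.RB.V N (Pool.Agent.H623.RB.Del (max M1 M2) D)) c)).card : ℝ))) (fun D => ¬ ((κ - ε / 2) * N ≤
        (((Pool.Agent.H623.RB.Sv N).filter (fun x => 0 < (-1 : ℤ) * x ∧ ∃ c ∈ Reps, x ∈ Pool.Agent.H623.RB.CompW
          (Pool.Agent.H623.RB.V N (Pool.Agent.H623.RB.Del (max M1 M2) D)) c)).card : ℝ)))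
      have h4 : Pool.Agent.H623.RB.Pr (Pool.Agent.H623.RB.Sv N) (fun v => p v.natAbs) (fun D => ¬ ((2 * κ - ε) * N ≤
          ({x : ℤ | ∃ c ∈ Reps, x ∈ Comp N (Above (max M1 M2) D) c}.ncard : ℝ))) ≤ ε := by
        refine le_trans (Pool.Agent.H623.RB.Pr_mono hq0 hq1 ?_) (h3.trans (by linarith))
        intro D _ hD
        by_contra hcon
        push Not at hcon
        obtain ⟨b1, b2⟩ := hcon
        apply hD
        have hfin : {x : ℤ | ∃ c ∈ Reps, x ∈ Comp N (Above (max M1 M2) D) c}.Finite := by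
          apply (Set.finite_Icc (-(N : ℤ)) N).subset
          rintro x ⟨c, _, hx⟩
          have h5 : |x| ≤ N := hx.1.1
          rwa [abs_le] at h5
        have h5 : ((Pool.Agent.H623.RB.Sv N).filter (fun x => 0 < (1 : ℤ) * x ∧ ∃ c ∈ Reps, x ∈ Pool.Agent.H623.RB.CompW
            (Pool.Agent.H623.RB.V N (Pool.Agent.H623.RB.Del (max M1 M2) D)) c)).card +
            ((Pool.Agent.H623.RB.Sv N).filter (fun x => 0 < (-1 : ℤ) * x ∧ ∃ c ∈ Reps, x ∈ Pool.Agent.H623.RB.CompW
            (Pool.Agent.H623.RB.V N (Pool.Agent.H623.RB.Del (max M1 M2) D)) c)).card ≤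
            {x : ℤ | ∃ c ∈ Reps, x ∈ Comp N (Above (max M1 M2) D) c}.ncard := by
          rw [← Finset.card_union_of_disjoint, ← Set.ncard_coe_finset]
          · apply Set.ncard_le_ncard _ hfin
            intro x hx
            rw [Finset.mem_coe, Finset.mem_union, Finset.mem_filter, Finset.mem_filter] at hx
            rcases hx with hx | hx
            · exact hx.2.2
            · exact hx.2.2
          · rw [Finset.disjoint_left]
            intro x hx hy
            rw [Finset.mem_filter] at hx hy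
            have h6 := hx.2.1
            have h7 := hy.2.1
            omega
        have h6 : ((((Pool.Agent.H623.RB.Sv N).filter (fun x => 0 < (1 : ℤ) * x ∧ ∃ c ∈ Reps, x ∈ Pool.Agent.H623.RB.CompW
            (Pool.Agent.H623.RB.V N (Pool.Agent.H623.RB.Del (max M1 M2) D)) c)).card : ℝ)) +
            (((Pool.Agent.H623.RB.Sv N).filter (fun x => 0 < (-1 : ℤ) * x ∧ ∃ c ∈ Reps, x ∈ Pool.Agent.H623.RB.CompW
            (Pool.Agent.H623.RB.V N (Pool.Agent.H623.RB.Del (max M1 M2) D)) c)).card : ℝ) ≤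
            ({x : ℤ | ∃ c ∈ Reps, x ∈ Comp N (Above (max M1 M2) D) c}.ncard : ℝ) := by exact_mod_cast h5
        linarith
      rw [Pool.Agent.H623.RB.Pr_not] at h4
      linarith
    · intro H
      by_contra hcon
      push Not at hcon
      obtain ⟨x0, hx0⟩ := hcon
      have hx00 : x0 ≠ 0 := by
        rintro rfl
        exact hx0 0 (by decide)
      have hnot : ∀ c ∈ Reps, x0 ∉ Cls c := by
        intro c hc h
        obtain ⟨k, hk⟩ := reach_of_cls (known_four c hc) h
        exact hx0 k hk
      have hδ0 := (hδ x0 hx00).1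
      have hsum : ∑ c ∈ Reps, δ c ≤ 2 - δ x0 := by
        rw [hsum4]
        rcases lt_or_gt_of_ne hx00 with h | h
        · have := extra2 x0 h (fun c hc => hnot c (hsub2 c hc))
          linarith
        · have := extra1 x0 h (hnot 1 (by decide))
          linarith
      have h2 := Pool.Agent.H623.RB.back hκ hδ Reps hne (a := 2 * κ) H
      nlinarith
    · intro hall ε hε
      obtain ⟨M1, H1⟩ := Pool.Agent.H623.RB.link (s := 1) (Or.inl rfl) hκ hp h0 h1 hs {1} (by
        intro x hx
        rw [one_mul] at hx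
        obtain ⟨k, hk⟩ := hall x hx
        exact ⟨1, Finset.mem_singleton_self 1, 0, k, hk.symm⟩) hε
      refine ⟨M1, ?_⟩
      filter_upwards [H1 M1 le_rfl] with N a1
      rw [prob_eq]
      have h4 : Pool.Agent.H623.RB.Pr (Pool.Agent.H623.RB.Sv N) (fun v => p v.natAbs) (fun D => ¬ ((κ - ε) * N ≤
          ((Comp N (Above M1 D) 1).ncard : ℝ))) ≤ ε := by
        refine le_trans (Pool.Agent.H623.RB.Pr_mono hq0 hq1 ?_) a1
        intro D _ hD hcon
        apply hD
        refine hcon.trans ?_
        have hfin : (Comp N (Above M1 D) 1).Finite := by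
          apply (Set.finite_Icc (-(N : ℤ)) N).subset
          rintro x hx
          have h5 : |x| ≤ N := hx.1.1
          rwa [abs_le] at h5
        rw [← Set.ncard_coe_finset]
        have h5 : (((Pool.Agent.H623.RB.Sv N).filter (fun x => 0 < (1 : ℤ) * x ∧ ∃ c ∈ ({1} : Finset ℤ), x ∈ Pool.Agent.H623.RB.CompW
            (Pool.Agent.H623.RB.V N (Pool.Agent.H623.RB.Del M1 D)) c) : Finset ℤ) : Set ℤ).ncard ≤ (Comp N (Above M1 D) 1).ncard := by
          apply Set.ncard_le_ncard _ hfin
          intro x hx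
          rw [Finset.mem_coe, Finset.mem_filter] at hx
          obtain ⟨_, _, c, hc, hx⟩ := hx
          rw [Finset.mem_singleton] at hc
          subst hc
          exact hx
        exact_mod_cast h5
      rw [Pool.Agent.H623.RB.Pr_not] at h4
      linarith
    · intro H
      by_contra hcon
      push Not at hcon
      obtain ⟨x0, hx0, hn⟩ := hcon
      have hnot : x0 ∉ Cls 1 := by
        intro h
        obtain ⟨k, hk⟩ := reach_one h
        exact hn k hk
      have hδ0 := (hδ x0 hx0.ne').1
      have hsum := extra1 x0 hx0 hnot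
      have h2 := Pool.Agent.H623.RB.back hκ hδ {1} (by decide) (a := κ) (p := p) (fun ε hε => by
        obtain ⟨M, hM⟩ := H ε hε
        refine ⟨M, hM.mono fun N hN => ?_⟩
        rw [prob_eq] at hN
        simp only [Finset.mem_singleton, exists_eq_left]
        exact hN)
      rw [Finset.sum_singleton] at h2
      nlinarith

end Pool.Agent.Results.MP_d02c56_nt.DeletionThreshold
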