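import Pool.Agent.H623.DG.I

/-!
# The distances in the giant components of the Collatz graph on `[-N, N]`

Let `G_N` be the finite graph with the vertices `-N, ..., N` in which `x` is joined to `C x` whenever
`|C x| ≤ N`. The component of a fixed `a ≠ 0` in `G_N` has `(κ δ + o(1)) N` vertices, `δ > 0` the density of the
class of `a`. Its metric structure:

* almost all pairs of vertices of `G_N` that are in the same component have the distance
  `(6 / log (4/3) + o(1)) log N`;
* the distance of a random vertex of the component of `a` to `a` is asymptotically normal, with the mean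
  `3 / log (4/3) log N` and the variance `2 (log 6) ^ 2 / (log (4/3)) ^ 3 log N`;
* `a` is nearly on the geodesic of almost all pairs `x, y` of vertices of its component:
  `dist x y = dist x a + dist y a + O(1)`. So the distance of two random vertices is, up to a bounded error, the
  sum of two independent variables with the law above, and each component looks like a star with
  legs of length `3 / log (4/3) log N`;
* the question Q1 has a positive answer if and only if, for every `ε > 0` and all large `N`, at least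
  `(2 κ - ε) N` vertices of `G_N` are at distance at most `(3 / log (4/3) + ε) log N` from one of
  `1, -1, -5, -17`; the conjecture of Collatz on the positive integers says the same with `κ` and `1`.

Author: helper623. Used from the starting library (Pool.Graph.R_seed8): the densities of the classes, the
law of the hitting times of finite sets, the theorem that almost all pairs of trajectories are disjoint
down to bounded values, the coalescence of `n` and `n + h`.
-/

set_option autoImplicit false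

namespace Pool.Agent.Results.MP_d02c56_nt.DistancesInGiants

open Filter Topology

/-- The Collatz map on the integers. -/
def C (x : ℤ) : ℤ := if x % 2 = 0 then x / 2 else 3 * x + 1

/-- The edges of the graph `G_N`: the vertices are the integers of absolute value at most `N`, and `x`
is joined to `C x`. -/
def Edge (N : ℕ) (x y : ℤ) : Prop := |x| ≤ N ∧ |y| ≤ N ∧ y = C x

/-- The graph `G_N` (the integers of absolute value greater than `N` are isolated). -/
def G (N : ℕ) : SimpleGraph ℤ := SimpleGraph.fromRel (Edge N)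

/-- `x` and `y` are joined in `G_N` by a walk of length at most `r`. -/
def Near (N : ℕ) (r : ℝ) (x y : ℤ) : Prop := ∃ p : (G N).Walk x y, (p.length : ℝ) ≤ r

/-- The class of `x`: the integers whose trajectory has a term in common with the trajectory of `x`. -/
def Cls (x : ℤ) : Set ℤ := {y | ∃ i j : ℕ, C^[i] x = C^[j] y}

/-- Among the integers of sign `s` the set `S` has natural density `δ`. -/
def HasDensity (s : ℤ) (S : Set ℤ) (δ : ℝ) : Prop :=
  Tendsto (fun N : ℕ => ({n : ℤ | 0 < s * n ∧ s * n ≤ N ∧ n ∈ S}.ncard : ℝ) / N) atTop (𝓝 δ)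

/-- The mean over the words `w` of `K + 1` letters of the least of the ratios
`2 ^ k / 3 ^ (number of letters `true` among `w 0, ..., w k`)`, `0 ≤ k ≤ K`. -/
noncomputable def meanShare (K : ℕ) : ℝ :=
  (∑ w : Fin (K + 1) → Bool, Finset.univ.inf' Finset.univ_nonempty (fun k : Fin (K + 1) =>
    (2 : ℝ) ^ (k : ℕ) / 3 ^ ((Finset.univ : Finset (Fin (K + 1))).filter (fun i => i ≤ k ∧ w i = true)).card))
    / 2 ^ (K + 1)

/-- The distribution function of the standard normal law. -/
noncomputable def Phi (z : ℝ) : ℝ := ProbabilityTheory.cdf (ProbabilityTheory.gaussianReal 0 1) z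

/-- `3 / log (4/3) * log N + z * log 6 * √(2 log N / (log (4/3))^3)` -/
noncomputable def bound (z : ℝ) (N : ℕ) : ℝ :=
  3 / Real.log (4 / 3) * Real.log N + z * (Real.log 6 * Real.sqrt (2 * Real.log N / Real.log (4 / 3) ^ 3))

/-- The union of the five known cycles. -/
def Known : Finset ℤ := {1, 4, 2, -1, -2, -5, -14, -7, -20, -10, -17, -50, -25, -74, -37, -110,
  -55, -164, -82, -41, -122, -61, -182, -91, -272, -136, -68, -34, 0}

/-- One element of each of the known cycles different from `{0}`. -/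
def Reps : Finset ℤ := {1, -1, -5, -17}

/-! ### proofs -/

open Pool.Agent.H623 (TG.C_iter_sign)

theorem closed_iter {S : Finset ℤ} (h : ∀ x ∈ S, C x ∈ S) : ∀ (k : ℕ) (x : ℤ), x ∈ S → C^[k] x ∈ S
  | 0, x, hx => hx
  | k + 1, x, hx => by rw [Function.iterate_succ_apply']; exact h _ (closed_iter h k x hx)

theorem sep {S S' : Finset ℤ} (h : ∀ x ∈ S, C x ∈ S) (h' : ∀ x ∈ S', C x ∈ S') (hd : ∀ x ∈ S, x ∉ S')
    {x y : ℤ} (hx : x ∈ S) (hy : y ∈ S') : y ∉ Cls x := by
  rintro ⟨i, j, e⟩
  exact hd _ (closed_iter h i x hx) (e ▸ closed_iter h' j y hy)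

def Z1 : Finset ℤ := {1, 4, 2}
def Z2 : Finset ℤ := {-1, -2}
def Z3 : Finset ℤ := {-5, -14, -7, -20, -10}
def Z4 : Finset ℤ := {-17, -50, -25, -74, -37, -110,
  -55, -164, -82, -41, -122, -61, -182, -91, -272, -136, -68, -34}

theorem four_cls : ∀ x ∈ Reps, ∀ y ∈ Reps, y ∈ Cls x → x = y := by
  have c1 : ∀ x ∈ Z1, C x ∈ Z1 := by decide
  have c2 : ∀ x ∈ Z2, C x ∈ Z2 := by decide
  have c3 : ∀ x ∈ Z3, C x ∈ Z3 := by decide
  have c4 : ∀ x ∈ Z4, C x ∈ Z4 := by decide
  intro x hx y hy h
  unfold Reps at hx hy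
  simp only [Finset.mem_insert, Finset.mem_singleton] at hx hy
  rcases hx with rfl | rfl | rfl | rfl <;> rcases hy with rfl | rfl | rfl | rfl
  · rfl
  · exact absurd h (sep c1 c2 (by decide) (by decide) (by decide))
  · exact absurd h (sep c1 c3 (by decide) (by decide) (by decide))
  · exact absurd h (sep c1 c4 (by decide) (by decide) (by decide))
  · exact absurd h (sep c2 c1 (by decide) (by decide) (by decide))
  · rfl
  · exact absurd h (sep c2 c3 (by decide) (by decide) (by decide))
  · exact absurd h (sep c2 c4 (by decide) (by decide) (by decide))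
  · exact absurd h (sep c3 c1 (by decide) (by decide) (by decide))
  · exact absurd h (sep c3 c2 (by decide) (by decide) (by decide))
  · rfl
  · exact absurd h (sep c3 c4 (by decide) (by decide) (by decide))
  · exact absurd h (sep c4 c1 (by decide) (by decide) (by decide))
  · exact absurd h (sep c4 c2 (by decide) (by decide) (by decide))
  · exact absurd h (sep c4 c3 (by decide) (by decide) (by decide))
  · rfl

theorem known_closed : ∀ x ∈ Known, C x ∈ Known := by decide

theorem known_reach : ∀ x ∈ Known, x = 0 ∨ ∃ c ∈ Reps, ∃ k < 20, C^[k] c = x := by decide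

theorem known_four : ∀ c ∈ Reps, c ∈ Known := by decide

theorem cls_of_reach {x : ℤ} (hx : x ≠ 0) (h : ∃ k, C^[k] x ∈ Known) : ∃ c ∈ Reps, x ∈ Cls c := by
  obtain ⟨k, hk⟩ := h
  rcases known_reach _ hk with h0 | ⟨c, hc, j, _, hj⟩
  · exfalso
    obtain ⟨h1, h2⟩ := Pool.Agent.H623.TG.sign_side hx
    have h3 := TG.C_iter_sign h1 h2 k
    have h4 : Pool.Agent.H623.TG.C^[k] x = 0 := h0
    rw [h4] at h3
    simp at h3
  · exact ⟨c, hc, j, k, hj⟩

theorem reach_of_cls {x c : ℤ} (hc : c ∈ Known) (h : x ∈ Cls c) : ∃ k, C^[k] x ∈ Known := by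
  obtain ⟨i, j, e⟩ := h
  exact ⟨j, e ▸ closed_iter known_closed i c hc⟩

theorem reach_one {x : ℤ} (h : x ∈ Cls 1) : ∃ k, C^[k] x = 1 := by
  obtain ⟨i, j, e⟩ := h
  have h1 := closed_iter (S := Z1) (by decide) i 1 (by decide)
  rw [e] at h1
  unfold Z1 at h1
  simp only [Finset.mem_insert, Finset.mem_singleton] at h1
  rcases h1 with h | h | h
  · exact ⟨j, h⟩
  · refine ⟨2 + j, ?_⟩
    rw [Function.iterate_add_apply, h]; decide
  · refine ⟨1 + j, ?_⟩
    rw [Function.iterate_add_apply, h]; decide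

theorem al_eq : Pool.Agent.H623.DG.al = 3 / Real.log (4 / 3) := rfl

theorem bound_eq (z : ℝ) (N : ℕ) : Pool.Agent.Y964.LW.thr Pool.Agent.H623.DG.al Pool.Agent.H623.DG.sd z (Real.log N) = bound z N :=
  Pool.Agent.H623.DG.thr_eq (Real.log_natCast_nonneg N)

theorem phi_eq (z : ℝ) : Pool.Agent.H499R2.ND.Phi z = Phi z := Pool.Agent.H499R2.ND.phi_cdf z

/-- There are a constant `1/3 ≤ κ ≤ 2/3`, the limit of the means `meanShare K`, and for every `x ≠ 0` a
positive number `δ x`, the natural density of the class of `x` among the integers of the sign of `x`,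
such that (`dist` is the graph distance in `G_N`):

1. for every `a ≠ 0` the component of `a` in `G_N` has `(κ δ(a) + o(1)) N` vertices;
2. (central limit theorem) for every `a ≠ 0` and real `z`, `(κ δ(a) Φ(z) + o(1)) N` vertices of `G_N` are at
   distance at most `bound z N` from `a`, `Φ` the distribution function of the standard normal law;
3. (center) for every `a ≠ 0` and `ε > 0` there is `M` such that for all large `N`, for all but `ε N ^ 2` of the pairs
   `x, y` of vertices of the component of `a` the numbers `dist x y` and `dist x a + dist y a` differ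
   by at most `M`;
4. (law of large numbers) for every `ε > 0` and all large `N`, all but `ε N ^ 2` of the pairs of vertices of `G_N` in
   the same component have a distance that differs by at most `ε log N` from `6 / log (4/3) log N`;
5. all trajectories on the integers reach one of the five known cycles if and only if for every `ε > 0` and all
   large `N` at least `(2 κ - ε) N` vertices of `G_N` are at distance at most `(3 / log (4/3) + ε) log N` from
   one of `1, -1, -5, -17`;
6. all trajectories on the positive integers reach `1` if and only if for every `ε > 0` and all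
   large `N` at least `(κ - ε) N` vertices of `G_N` are at distance at most `(3 / log (4/3) + ε) log N` from `1`. -/
theorem result : ∃ (κ : ℝ) (δ : ℤ → ℝ), Tendsto meanShare atTop (𝓝 κ) ∧ 1 / 3 ≤ κ ∧ κ ≤ 2 / 3 ∧
    (∀ x : ℤ, x ≠ 0 → 0 < δ x ∧ HasDensity x.sign (Cls x) (δ x)) ∧
    (∀ a : ℤ, a ≠ 0 →
      Tendsto (fun N : ℕ => ({x : ℤ | |x| ≤ N ∧ (G N).Reachable x a}.ncard : ℝ) / N) atTop (𝓝 (κ * δ a))) ∧
    (∀ a : ℤ, a ≠ 0 → ∀ z : ℝ,
      Tendsto (fun N : ℕ => ({x : ℤ | |x| ≤ N ∧ Near N (bound z N) x a}.ncard : ℝ) / N) atTop (𝓝 (κ * δ a * Phi z))) ∧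
    (∀ a : ℤ, a ≠ 0 → ∀ ε : ℝ, 0 < ε → ∃ M N₀ : ℕ, ∀ N : ℕ, N₀ ≤ N →
      ({p : ℤ × ℤ | |p.1| ≤ N ∧ |p.2| ≤ N ∧ (G N).Reachable p.1 a ∧ (G N).Reachable p.2 a ∧
        (M : ℤ) < |((G N).dist p.1 p.2 : ℤ) - (G N).dist p.1 a - (G N).dist p.2 a|}.ncard : ℝ) ≤ ε * (N : ℝ) ^ 2) ∧
    (∀ ε : ℝ, 0 < ε → ∃ N₀ : ℕ, ∀ N : ℕ, N₀ ≤ N →
      ({p : ℤ × ℤ | |p.1| ≤ N ∧ |p.2| ≤ N ∧ (G N).Reachable p.1 p.2 ∧
        ε * Real.log N < |((G N).dist p.1 p.2 : ℝ) - 6 / Real.log (4 / 3) * Real.log N|}.ncard : ℝ) ≤ ε * (N : ℝ) ^ 2) ∧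
    ((∀ x : ℤ, ∃ k : ℕ, C^[k] x ∈ Known) ↔ ∀ ε : ℝ, 0 < ε → ∀ᶠ N : ℕ in atTop, (2 * κ - ε) * N ≤
      ({x : ℤ | |x| ≤ N ∧ ∃ c ∈ Reps, Near N ((3 / Real.log (4 / 3) + ε) * Real.log N) x c}.ncard : ℝ)) ∧
    ((∀ x : ℤ, 0 < x → ∃ k : ℕ, C^[k] x = 1) ↔ ∀ ε : ℝ, 0 < ε → ∀ᶠ N : ℕ in atTop, (κ - ε) * N ≤
      ({x : ℤ | |x| ≤ N ∧ Near N ((3 / Real.log (4 / 3) + ε) * Real.log N) x 1}.ncard : ℝ)) := by
  classical
  obtain ⟨κ, hκ, hκ1, hκ2, -⟩ := Pool.Agent.H623.TG.kap_lim
  obtain ⟨δ, hδ⟩ := Pool.Agent.H623.TG.dens_fun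
  have hκ0 : 0 < κ := by linarith
  have hκ1' : κ ≤ 1 := by linarith
  have hpos1 : (0 : ℤ) < 1 * 1 := by norm_num
  -- densities
  have F1 : ∀ c ∈ ({1} : Finset ℤ), Pool.Agent.H499R2.ND.HD 1 (Cls c) (δ c) := by
    intro c hc
    rw [Finset.mem_singleton] at hc
    subst hc
    exact (hδ 1 (by norm_num)).2.1
  have F2 : ∀ c ∈ ({-1, -5, -17} : Finset ℤ), Pool.Agent.H499R2.ND.HD (-1) (Cls c) (δ c) := by
    intro c hc
    simp only [Finset.mem_insert, Finset.mem_singleton] at hc
    rcases hc with rfl | rfl | rfl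
    · exact (hδ (-1) (by norm_num)).2.1
    · exact (hδ (-5) (by norm_num)).2.1
    · exact (hδ (-17) (by norm_num)).2.1
  have hsum4 : ∑ c ∈ Reps, δ c = δ 1 + ∑ c ∈ ({-1, -5, -17} : Finset ℤ), δ c := by
    have e : Reps = insert 1 ({-1, -5, -17} : Finset ℤ) := rfl
    rw [e, Finset.sum_insert (by decide)]
  have hne : ∀ c ∈ Reps, c ≠ 0 := by decide
  have hpw1 : ∀ x ∈ ({1} : Finset ℤ), ∀ y ∈ ({1} : Finset ℤ), y ∈ Cls x → x = y := by
    intro x hx y hy _
    rw [Finset.mem_singleton] at hx hy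
    rw [hx, hy]
  have hsub2 : ∀ x ∈ ({-1, -5, -17} : Finset ℤ), x ∈ Reps := by decide
  have hpw2 : ∀ x ∈ ({-1, -5, -17} : Finset ℤ), ∀ y ∈ ({-1, -5, -17} : Finset ℤ), y ∈ Cls x → x = y :=
    fun x hx y hy h => four_cls x (hsub2 x hx) y (hsub2 y hy) h
  obtain ⟨s1, s1'⟩ := Pool.Agent.H623.DG.sum_dens (s := 1) (Or.inl rfl) (δ := δ) {1} F1 hpw1
  obtain ⟨s2, s2'⟩ := Pool.Agent.H623.DG.sum_dens (s := -1) (Or.inr rfl) (δ := δ) {-1, -5, -17} F2 hpw2
  rw [Finset.sum_singleton] at s1 s1'
  -- an integer outside of the known classes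
  have extra1 : ∀ x0 : ℤ, 0 < x0 → x0 ∉ Cls 1 → δ x0 + δ 1 ≤ 1 := by
    intro x0 hx0 hn
    have hx1 : x0 ≠ 1 := fun h => hn (h ▸ ⟨0, 0, rfl⟩)
    have h1 := (Pool.Agent.H623.DG.sum_dens (s := 1) (Or.inl rfl) (δ := δ) {x0, 1} (by
      intro c hc
      rw [Finset.mem_insert, Finset.mem_singleton] at hc
      rcases hc with rfl | rfl
      · have h2 := (hδ c hx0.ne').2.1
        rwa [Int.sign_eq_one_of_pos hx0] at h2
      · exact (hδ 1 (by norm_num)).2.1) (by
      intro x hx y hy hxy
      rw [Finset.mem_insert, Finset.mem_singleton] at hx hy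
      rcases hx with rfl | rfl <;> rcases hy with rfl | rfl
      · rfl
      · exact absurd (Pool.Agent.H623.TG.Cls_symm hxy) hn
      · exact absurd hxy hn
      · rfl)).1
    rw [Finset.sum_insert (by rw [Finset.mem_singleton]; exact hx1), Finset.sum_singleton] at h1
    exact h1
  have extra2 : ∀ x0 : ℤ, x0 < 0 → (∀ c ∈ ({-1, -5, -17} : Finset ℤ), x0 ∉ Cls c) →
      δ x0 + ∑ c ∈ ({-1, -5, -17} : Finset ℤ), δ c ≤ 1 := by
    intro x0 hx0 hn
    have hx1 : x0 ∉ ({-1, -5, -17} : Finset ℤ) := fun h => hn x0 h ⟨0, 0, rfl⟩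
    have h1 := (Pool.Agent.H623.DG.sum_dens (s := -1) (Or.inr rfl) (δ := δ) (insert x0 {-1, -5, -17}) (by
      intro c hc
      rw [Finset.mem_insert] at hc
      rcases hc with rfl | hc
      · have h2 := (hδ c hx0.ne).2.1
        rwa [Int.sign_eq_neg_one_of_neg hx0] at h2
      · exact F2 c hc) (by
      intro x hx y hy hxy
      rw [Finset.mem_insert] at hx hy
      rcases hx with rfl | hx <;> rcases hy with rfl | hy
      · rfl
      · exact absurd (Pool.Agent.H623.TG.Cls_symm hxy) (hn y hy)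
      · exact absurd hxy (hn x hx)
      · exact hpw2 x hx y hy hxy)).1
    rw [Finset.sum_insert hx1] at h1
    exact h1
  refine ⟨κ, δ, ?_, hκ1, hκ2, fun x hx => ⟨(hδ x hx).1, (hδ x hx).2.2⟩, ?_, ?_, ?_, ?_, ?_, ?_⟩
  · have h1 := (tendsto_add_atTop_iff_nat 1).2 hκ
    refine h1.congr fun K => ?_
    unfold Pool.Agent.H623.TG.kap meanShare
    congr 1
    exact Finset.sum_congr rfl fun w _ => Pool.Agent.H623.TG.mn_inf w
  · intro a ha
    refine (Pool.Agent.H623.TG.size' hκ hδ a ha).congr fun N => ?_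
    congr 3
    ext x
    rw [Set.mem_ofPred_eq, Pool.Agent.H623.TG.mem_Comp]
    constructor
    · intro h
      exact ⟨Pool.Agent.H623.TG.Mt_right h, Pool.Agent.H623.DG.Mt_walk (Pool.Agent.H623.TG.Mt_symm h)⟩
    · rintro ⟨h1, ⟨p⟩⟩
      exact Pool.Agent.H623.TG.Mt_symm (Pool.Agent.H623.DG.walk_Mt h1 p)
  · intro a ha z
    obtain ⟨g1, g2⟩ := Pool.Agent.H623.TG.sign_side ha
    have h := Pool.Agent.H623.DG.clt_dist g1 hκ hκ0 hκ1' g2 (hδ a ha).2.1 z
    simp only [bound_eq, phi_eq] at h
    exact h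
  · intro a _ ε hε
    obtain ⟨M, N0, H⟩ := Pool.Agent.H623.DG.pairs_center (a := a) hε
    refine ⟨M, N0, fun N hN => ?_⟩
    have h := H N hN
    convert h using 3
    ext p
    simp only [Set.mem_ofPred_eq, Pool.Agent.H623.TG.mem_Comp]
    constructor
    · rintro ⟨h1, h2, ⟨p1⟩, ⟨p2⟩, h5⟩
      exact ⟨Pool.Agent.H623.TG.Mt_symm (Pool.Agent.H623.DG.walk_Mt h1 p1),
        Pool.Agent.H623.TG.Mt_symm (Pool.Agent.H623.DG.walk_Mt h2 p2), h5⟩
    · rintro ⟨h1, h2, h5⟩
      exact ⟨Pool.Agent.H623.TG.Mt_right h1, Pool.Agent.H623.TG.Mt_right h2,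
        Pool.Agent.H623.DG.Mt_walk (Pool.Agent.H623.TG.Mt_symm h1),
        Pool.Agent.H623.DG.Mt_walk (Pool.Agent.H623.TG.Mt_symm h2), h5⟩
  · intro ε hε
    obtain ⟨N0, H⟩ := Pool.Agent.H623.DG.pairs_lln hε
    refine ⟨N0, fun N hN => ?_⟩
    have h := H N hN
    have e : 6 / Real.log (4 / 3) = 2 * Pool.Agent.H623.DG.al := by rw [al_eq]; ring
    rw [e]
    exact h
  · constructor
    · intro hall ε hε
      have h := Pool.Agent.H623.DG.near_lower hκ hκ0 hκ1' hδ Reps hne four_cls hε hε
      have e1 : δ 1 = 1 := s1' (by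
        intro x hx
        rw [one_mul] at hx
        obtain ⟨c, hc, hxc⟩ := cls_of_reach hx.ne' (hall x)
        refine ⟨1, Finset.mem_singleton_self 1, ?_⟩
        unfold Reps at hc
        simp only [Finset.mem_insert, Finset.mem_singleton] at hc
        rcases hc with rfl | hc
        · exact hxc
        · exfalso
          have hcneg : 0 < (-1 : ℤ) * c := by rcases hc with rfl | rfl | rfl <;> norm_num
          have := Pool.Agent.H623.TG.Cls_sign (s := -1) (Or.inr rfl) hcneg hxc
          omega)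
      have e2 : ∑ c ∈ ({-1, -5, -17} : Finset ℤ), δ c = 1 := s2' (by
        intro x hx
        obtain ⟨c, hc, hxc⟩ := cls_of_reach (by rintro rfl; simp at hx) (hall x)
        unfold Reps at hc
        rw [Finset.mem_insert] at hc
        rcases hc with rfl | hc
        · exfalso
          have := Pool.Agent.H623.TG.Cls_sign (s := 1) (Or.inl rfl) hpos1 hxc
          omega
        · exact ⟨c, hc, hxc⟩)
      rw [hsum4, e1, e2] at h
      refine h.mono fun N hN => ?_
      have e3 : κ * (1 + 1) - ε = 2 * κ - ε := by ring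
      rw [e3] at hN
      exact hN
    · intro H
      by_contra hcon
      push Not at hcon
      obtain ⟨x0, hx0⟩ := hcon
      have hx00 : x0 ≠ 0 := by
        rintro rfl
        exact hx0 0 (by decide)
      have hnot : ∀ c ∈ Reps, x0 ∉ Cls c := by
        intro c hc h
        obtain ⟨k, hk⟩ := reach_of_cls (known_four c hc) h
        exact hx0 k hk
      have hδ0 := (hδ x0 hx00).1
      have hsum : ∑ c ∈ Reps, δ c ≤ 2 - δ x0 := by
        rw [hsum4]
        rcases lt_or_gt_of_ne hx00 with h | h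
        · have := extra2 x0 h (fun c hc => hnot c (hsub2 c hc))
          linarith
        · have := extra1 x0 h (hnot 1 (by decide))
          linarith
      have hε : 0 < κ * δ x0 / 3 := by positivity
      have h1 := Pool.Agent.H623.DG.near_upper hκ hδ Reps hne hε
      obtain ⟨N, h2, h3, h4⟩ := (h1.and ((H _ hε).and (eventually_ge_atTop 1))).exists
      have hNR : (0 : ℝ) < N := by exact_mod_cast h4
      have h5 := h3.trans (h2 _)
      have h6 := le_of_mul_le_mul_right h5 hNR
      nlinarith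
  · constructor
    · intro hall ε hε
      have h := Pool.Agent.H623.DG.near_lower hκ hκ0 hκ1' hδ {1} (by decide) hpw1 hε hε
      have e1 : δ 1 = 1 := s1' (by
        intro x hx
        rw [one_mul] at hx
        obtain ⟨k, hk⟩ := hall x hx
        exact ⟨1, Finset.mem_singleton_self 1, 0, k, hk.symm⟩)
      rw [Finset.sum_singleton, e1, mul_one] at h
      refine h.mono fun N hN => ?_
      simp only [Finset.mem_singleton, exists_eq_left] at hN
      exact hN
    · intro H
      by_contra hcon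
      push Not at hcon
      obtain ⟨x0, hx0, hn⟩ := hcon
      have hnot : x0 ∉ Cls 1 := by
        intro h
        obtain ⟨k, hk⟩ := reach_one h
        exact hn k hk
      have hδ0 := (hδ x0 hx0.ne').1
      have hsum := extra1 x0 hx0 hnot
      have hε : 0 < κ * δ x0 / 3 := by positivity
      have h1 := Pool.Agent.H623.DG.near_upper hκ hδ {1} (by decide) hε
      obtain ⟨N, h2, h3, h4⟩ := (h1.and ((H _ hε).and (eventually_ge_atTop 1))).exists
      have hNR : (0 : ℝ) < N := by exact_mod_cast h4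
      have h2' := h2 ((3 / Real.log (4 / 3) + κ * δ x0 / 3) * Real.log N)
      simp only [Finset.mem_singleton, exists_eq_left, Finset.sum_singleton] at h2'
      have h5 := h3.trans h2'
      have h6 := le_of_mul_le_mul_right h5 hNR
      nlinarith

end Pool.Agent.Results.MP_d02c56_nt.DistancesInGiants
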