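import Pool.Agent.H623.TG.J
import Pool.Agent.H623.KA.K4

/-!
# The giant components of the Collatz graph on `[-N, N]`

Let `G_N` be the finite graph with the vertices `-N, ..., N` in which `x` is joined to `C x`
whenever `|C x| ≤ N`. Its components are pieces of the classes of the Collatz map on the integers
(two integers are in one class if their trajectories have a common term). With the constant

  `κ = (2/3) exp(- ∑_{n ≥ 1} a_n / n) = 0.3953217...`, `a_n = ∑_{j ≤ n} C(n, j) max(0, 2 ^ (-n) - 3 ^ (-j))`,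

which is the mean over the random parity words of the least of the ratios
`2 ^ k / 3 ^ (number of odd letters among the first k + 1)`:

* the component of every fixed `x ≠ 0` in `G_N` has `(κ δ + o(1)) N` elements, where `δ > 0` is the
  density of the class of `x`; more generally, the share `κ` of every invariant set is captured by the
  components of the bounded integers, uniformly in the set;
* all the other components are bounded, up to `ε N` elements in total;
* so for large `N` the number of the components of `G_N` with at least `ε N` elements is the number of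
  the classes of density `> ε / κ` (for all but countably many `ε`);
* the question Q1 has a positive answer if and only if for every `ε > 0` and all large `N` at most four
  components of `G_N` have at least `ε N` elements, and otherwise, for some `ε > 0`, at least five have,
  for all large `N`; the conjecture of Collatz on the positive integers says the same with one and two
  components of positive integers.

Author: helper623. The densities of the classes and the uniform laws for the invariant sets are those of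
the starting library (Pool.Graph.R_seed8), and so is the theorem on thin sets used for the tails.
-/

set_option autoImplicit false

namespace Pool.Agent.Results.MP_d02c56_nt.GiantComponents

open Filter Topology

/-- The Collatz map on the integers. -/
def C (x : ℤ) : ℤ := if x % 2 = 0 then x / 2 else 3 * x + 1

/-- The edges of the graph `G_N`: the vertices are the integers of absolute value at most `N`, and `x`
is joined to `C x`. -/
def Edge (N : ℕ) (x y : ℤ) : Prop := |x| ≤ N ∧ |y| ≤ N ∧ y = C x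

/-- The connected component of `x` in `G_N` (empty if `|x| > N`). -/
def Comp (N : ℕ) (x : ℤ) : Set ℤ := {y | |y| ≤ N ∧ Relation.EqvGen (Edge N) x y}

/-- The class of `x`: the integers whose trajectory has a term in common with the trajectory of `x`. -/
def Cls (x : ℤ) : Set ℤ := {y | ∃ i j : ℕ, C^[i] x = C^[j] y}

/-- `S` is invariant under the Collatz map and its inverse (a union of classes). -/
def Invariant (S : Set ℤ) : Prop := ∀ x : ℤ, x ∈ S ↔ C x ∈ S

/-- Among the integers of sign `s` the set `S` has natural density `δ`. -/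
def HasDensity (s : ℤ) (S : Set ℤ) (δ : ℝ) : Prop :=
  Tendsto (fun N : ℕ => ({n : ℤ | 0 < s * n ∧ s * n ≤ N ∧ n ∈ S}.ncard : ℝ) / N) atTop (𝓝 δ)

/-- The mean over the words `w` of `K + 1` letters of the least of the ratios
`2 ^ k / 3 ^ (number of letters `true` among `w 0, ..., w k`)`, `0 ≤ k ≤ K`. -/
noncomputable def meanShare (K : ℕ) : ℝ :=
  (∑ w : Fin (K + 1) → Bool, Finset.univ.inf' Finset.univ_nonempty (fun k : Fin (K + 1) =>
    (2 : ℝ) ^ (k : ℕ) / 3 ^ ((Finset.univ : Finset (Fin (K + 1))).filter (fun i => i ≤ k ∧ w i = true)).card))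
    / 2 ^ (K + 1)

/-- `a_n = ∑_{j ≤ n} C(n, j) max(0, 2 ^ (-n) - 3 ^ (-j))`. -/
noncomputable def a (n : ℕ) : ℝ :=
  ∑ j ∈ Finset.range (n + 1), (n.choose j : ℝ) * max 0 (1 / 2 ^ n - 1 / 3 ^ j)

/-- The constant `κ = (2/3) exp(- ∑_{n ≥ 1} a_n / n)`. -/
noncomputable def κ : ℝ := 2 / 3 * Real.exp (-∑' n : ℕ, a (n + 1) / (n + 1))

/-- The components of `G_N` with at least `ε N` elements. -/
def Giants (ε : ℝ) (N : ℕ) : Set (Set ℤ) := {A | ∃ x : ℤ, |x| ≤ N ∧ A = Comp N x ∧ ε * N ≤ A.ncard}

/-- The union of the five known cycles. -/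
def Known : Finset ℤ := {1, 4, 2, -1, -2, -5, -14, -7, -20, -10, -17, -50, -25, -74, -37, -110,
  -55, -164, -82, -41, -122, -61, -182, -91, -272, -136, -68, -34, 0}

open Pool.Agent.H623 (TG.C_iter_sign)

theorem closed_iter {S : Finset ℤ} (h : ∀ x ∈ S, C x ∈ S) : ∀ (k : ℕ) (x : ℤ), x ∈ S → C^[k] x ∈ S
  | 0, x, hx => hx
  | k + 1, x, hx => by rw [Function.iterate_succ_apply']; exact h _ (closed_iter h k x hx)

theorem sep {S S' : Finset ℤ} (h : ∀ x ∈ S, C x ∈ S) (h' : ∀ x ∈ S', C x ∈ S') (hd : ∀ x ∈ S, x ∉ S')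
    {x y : ℤ} (hx : x ∈ S) (hy : y ∈ S') : y ∉ Cls x := by
  rintro ⟨i, j, e⟩
  exact hd _ (closed_iter h i x hx) (e ▸ closed_iter h' j y hy)

def Z1 : Finset ℤ := {1, 4, 2}
def Z2 : Finset ℤ := {-1, -2}
def Z3 : Finset ℤ := {-5, -14, -7, -20, -10}
def Z4 : Finset ℤ := {-17, -50, -25, -74, -37, -110,
  -55, -164, -82, -41, -122, -61, -182, -91, -272, -136, -68, -34}

def F4 : Finset ℤ := {1, -1, -5, -17}

theorem four_cls : ∀ x ∈ F4, ∀ y ∈ F4, y ∈ Cls x → x = y := by
  have c1 : ∀ x ∈ Z1, C x ∈ Z1 := by decide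
  have c2 : ∀ x ∈ Z2, C x ∈ Z2 := by decide
  have c3 : ∀ x ∈ Z3, C x ∈ Z3 := by decide
  have c4 : ∀ x ∈ Z4, C x ∈ Z4 := by decide
  intro x hx y hy h
  unfold F4 at hx hy
  simp only [Finset.mem_insert, Finset.mem_singleton] at hx hy
  rcases hx with rfl | rfl | rfl | rfl <;> rcases hy with rfl | rfl | rfl | rfl
  · rfl
  · exact absurd h (sep c1 c2 (by decide) (by decide) (by decide))
  · exact absurd h (sep c1 c3 (by decide) (by decide) (by decide))
  · exact absurd h (sep c1 c4 (by decide) (by decide) (by decide))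
  · exact absurd h (sep c2 c1 (by decide) (by decide) (by decide))
  · rfl
  · exact absurd h (sep c2 c3 (by decide) (by decide) (by decide))
  · exact absurd h (sep c2 c4 (by decide) (by decide) (by decide))
  · exact absurd h (sep c3 c1 (by decide) (by decide) (by decide))
  · exact absurd h (sep c3 c2 (by decide) (by decide) (by decide))
  · rfl
  · exact absurd h (sep c3 c4 (by decide) (by decide) (by decide))
  · exact absurd h (sep c4 c1 (by decide) (by decide) (by decide))
  · exact absurd h (sep c4 c2 (by decide) (by decide) (by decide))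
  · exact absurd h (sep c4 c3 (by decide) (by decide) (by decide))
  · rfl

theorem known_closed : ∀ x ∈ Known, C x ∈ Known := by decide

theorem known_reach : ∀ x ∈ Known, x = 0 ∨ ∃ c ∈ F4, ∃ k < 20, C^[k] c = x := by decide

theorem known_four : ∀ c ∈ F4, c ∈ Known := by decide

theorem Cls_trans' {x y z : ℤ} (h : y ∈ Cls x) (h' : z ∈ Cls y) : z ∈ Cls x := Pool.Agent.H623.TG.Cls_trans h h'
theorem Cls_symm' {x y : ℤ} (h : y ∈ Cls x) : x ∈ Cls y := Pool.Agent.H623.TG.Cls_symm h

theorem cls_of_reach {x : ℤ} (hx : x ≠ 0) (h : ∃ k, C^[k] x ∈ Known) : ∃ c ∈ F4, x ∈ Cls c := by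
  obtain ⟨k, hk⟩ := h
  rcases known_reach _ hk with h0 | ⟨c, hc, j, _, hj⟩
  · exfalso
    obtain ⟨h1, h2⟩ := Pool.Agent.H623.TG.sign_side hx
    have h3 := TG.C_iter_sign h1 h2 k
    have h4 : Pool.Agent.H623.TG.C^[k] x = 0 := h0
    rw [h4] at h3
    simp at h3
  · exact ⟨c, hc, j, k, hj⟩

theorem reach_of_cls {x c : ℤ} (hc : c ∈ Known) (h : x ∈ Cls c) : ∃ k, C^[k] x ∈ Known := by
  obtain ⟨i, j, e⟩ := h
  exact ⟨j, e ▸ closed_iter known_closed i c hc⟩

theorem reach_one {x : ℤ} (h : x ∈ Cls 1) : ∃ k, C^[k] x = 1 := by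
  obtain ⟨i, j, e⟩ := h
  have h1 := closed_iter (S := Z1) (by decide) i 1 (by decide)
  rw [e] at h1
  unfold Z1 at h1
  simp only [Finset.mem_insert, Finset.mem_singleton] at h1
  rcases h1 with h | h | h
  · exact ⟨j, h⟩
  · refine ⟨2 + j, ?_⟩
    rw [Function.iterate_add_apply, h]; decide
  · refine ⟨1 + j, ?_⟩
    rw [Function.iterate_add_apply, h]; decide

/-- The series `∑ a_n / n` converges, `κ = 0.3953217...`, and `κ` is the limit of the means `meanShare K`.
There is for every `x ≠ 0` a positive number `δ x`, the natural density of the class of `x` among the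
integers of the sign of `x`, such that:

1. for every `x ≠ 0` the component of `x` in `G_N` has `(κ δ(x) + o(1)) N` elements;
2. for every sign `s` and `ε > 0`, for `M ≥ M₀` and `N ≥ N₀(M)`, and for ALL invariant sets `S`, of density
   `δ'` on the side `s`, the number of the `x ∈ S` of sign `s` with `|x| ≤ N` whose component contains an
   element of `[-M, M]` is within `ε N` of `κ δ' N`;
3. for every `ε > 0` there is `M` such that for all large `N` at most `ε N` of the vertices of `G_N` are
   in a component with more than `M` elements and without elements of `[-M, M]`;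
4. for every `ε > 0` which is not one of the (countably many) numbers `κ δ(x)` there are only finitely many
   classes with `κ δ > ε`, and for all large `N` their number is the number of the components of `G_N` with
   at least `ε N` elements;
5. if every trajectory on the integers reaches one of the five known cycles, then for every `ε > 0` and all
   large `N` at most four components of `G_N` have at least `ε N` elements; if not, then for some `ε > 0`
   and all large `N` at least five components of `G_N` have at least `ε N` elements;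
6. if every trajectory on the positive integers reaches `1`, then for every `ε > 0` and all large `N` at most
   one of these components contains positive integers; if not, then for some `ε > 0` and all large `N`
   at least two of them contain positive integers. -/
theorem result : Summable (fun n : ℕ => a (n + 1) / (n + 1)) ∧ 0.39532172 < κ ∧ κ < 0.39532174 ∧
    Tendsto meanShare atTop (𝓝 κ) ∧ ∃ δ : ℤ → ℝ,
    (∀ x : ℤ, x ≠ 0 → 0 < δ x ∧ HasDensity x.sign (Cls x) (δ x)) ∧
    (∀ x : ℤ, x ≠ 0 → Tendsto (fun N : ℕ => ((Comp N x).ncard : ℝ) / N) atTop (𝓝 (κ * δ x))) ∧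
    (∀ s : ℤ, s = 1 ∨ s = -1 → ∀ ε : ℝ, 0 < ε → ∃ M₀ : ℕ, ∀ M : ℕ, M₀ ≤ M → ∃ N₀ : ℕ, ∀ N : ℕ, N₀ ≤ N →
      ∀ S : Set ℤ, Invariant S → ∀ δ' : ℝ, HasDensity s S δ' →
        |({x : ℤ | 0 < s * x ∧ s * x ≤ N ∧ x ∈ S ∧ ∃ z ∈ Comp N x, |z| ≤ M}.ncard : ℝ) - κ * δ' * N| ≤ ε * N) ∧
    (∀ ε : ℝ, 0 < ε → ∃ M N₀ : ℕ, ∀ N : ℕ, N₀ ≤ N →
      ({x : ℤ | |x| ≤ N ∧ M < (Comp N x).ncard ∧ ∀ z ∈ Comp N x, (M : ℤ) < |z|}.ncard : ℝ) ≤ ε * N) ∧
    (∀ ε : ℝ, 0 < ε → (∀ x : ℤ, x ≠ 0 → κ * δ x ≠ ε) →
      {A : Set ℤ | ∃ x : ℤ, x ≠ 0 ∧ A = Cls x ∧ ε < κ * δ x}.Finite ∧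
      ∀ᶠ N : ℕ in atTop, (Giants ε N).ncard = {A : Set ℤ | ∃ x : ℤ, x ≠ 0 ∧ A = Cls x ∧ ε < κ * δ x}.ncard) ∧
    ((∀ x : ℤ, ∃ k : ℕ, C^[k] x ∈ Known) → ∀ ε : ℝ, 0 < ε → ∀ᶠ N : ℕ in atTop, (Giants ε N).ncard ≤ 4) ∧
    ((¬ ∀ x : ℤ, ∃ k : ℕ, C^[k] x ∈ Known) → ∃ ε : ℝ, 0 < ε ∧ ∀ᶠ N : ℕ in atTop, 5 ≤ (Giants ε N).ncard) ∧
    ((∀ x : ℤ, 0 < x → ∃ k : ℕ, C^[k] x = 1) → ∀ ε : ℝ, 0 < ε → ∀ᶠ N : ℕ in atTop,
      {A : Set ℤ | A ∈ Giants ε N ∧ ∃ x ∈ A, 0 < x}.ncard ≤ 1) ∧
    ((¬ ∀ x : ℤ, 0 < x → ∃ k : ℕ, C^[k] x = 1) → ∃ ε : ℝ, 0 < ε ∧ ∀ᶠ N : ℕ in atTop,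
      2 ≤ {A : Set ℤ | A ∈ Giants ε N ∧ ∃ x ∈ A, 0 < x}.ncard) := by
  classical
  have hκ : Tendsto Pool.Agent.H623.TG.kap atTop (𝓝 κ) := Pool.Agent.H623.KA.kap_closed
  obtain ⟨hd1, hd2⟩ : 0.39532172 < κ ∧ κ < 0.39532174 := Pool.Agent.H623.KA.digits
  obtain ⟨δ, hδ⟩ := Pool.Agent.H623.TG.dens_fun
  have hκ0 : 0 < κ := by linarith
  refine ⟨Pool.Agent.H623.KA.term_summable, hd1, hd2, ?_, δ, fun x hx => ⟨(hδ x hx).1, (hδ x hx).2.2⟩,
    fun x hx => Pool.Agent.H623.TG.size' hκ hδ x hx, ?_, fun ε hε => Pool.Agent.H623.TG.tight hε,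
    fun ε hε hg => Pool.Agent.H623.TG.count hκ hδ hε hg, ?_, ?_, ?_, ?_⟩
  · have h1 := (tendsto_add_atTop_iff_nat 1).2 hκ
    refine h1.congr fun K => ?_
    unfold Pool.Agent.H623.TG.kap meanShare
    congr 1
    exact Finset.sum_congr rfl fun w _ => Pool.Agent.H623.TG.mn_inf w
  · intro s hs ε hε
    obtain ⟨Y0, H⟩ := Pool.Agent.H623.TG.share hs hκ hε
    refine ⟨Y0, fun M hM => ?_⟩
    obtain ⟨N0, HN⟩ := H M hM
    refine ⟨N0, fun N hN S hS δ' hδ' => ?_⟩
    have h1 := HN N hN S hS δ' (Pool.Agent.H623.TG.HasD_HD hs hS hδ')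
    rw [← Pool.Agent.W41.cF_ncard hs] at h1
    exact h1
  · intro hall ε hε
    have h := Pool.Agent.H623.TG.giants_sub hκ hδ F4 (fun _ => True) (fun _ _ _ _ => trivial)
      (fun x hx _ => cls_of_reach hx (hall x)) hε
    filter_upwards [h] with N hN
    have e : {A | A ∈ Pool.Agent.H623.TG.Giants ε N ∧ ∃ x ∈ A, True} = Giants ε N := by
      ext A
      constructor
      · exact fun h => h.1
      · intro h
        refine ⟨h, ?_⟩
        obtain ⟨x, hx, rfl, _⟩ := h
        exact ⟨x, Pool.Agent.H623.TG.self_mem hx, trivial⟩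
    rw [e] at hN
    exact hN
  · intro hn
    push Not at hn
    obtain ⟨x0, hx0⟩ := hn
    have hx00 : x0 ≠ 0 := by
      rintro rfl
      exact hx0 0 (by decide)
    have hnot : ∀ c ∈ F4, x0 ∉ Cls c := by
      intro c hc h
      obtain ⟨k, hk⟩ := reach_of_cls (known_four c hc) h
      exact hx0 k hk
    have hx0F : x0 ∉ F4 := fun h => hnot x0 h ⟨0, 0, rfl⟩
    obtain ⟨ε, hε, h⟩ := Pool.Agent.H623.TG.giants_ge hκ hδ (insert x0 F4) (by
      intro x hx
      rw [Finset.mem_insert] at hx
      rcases hx with rfl | hx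
      · exact hx00
      · revert hx x; decide) (by
      intro x hx y hy hxy
      rw [Finset.mem_insert] at hx hy
      rcases hx with rfl | hx <;> rcases hy with rfl | hy
      · rfl
      · exact absurd (Cls_symm' hxy) (hnot y hy)
      · exact absurd hxy (hnot x hx)
      · exact four_cls x hx y hy hxy) hκ0
    refine ⟨ε, hε, ?_⟩
    filter_upwards [h] with N hN
    have hc : (insert x0 F4).card = 5 := by
      rw [Finset.card_insert_of_notMem hx0F]; decide
    rw [hc] at hN
    exact hN.trans (Set.ncard_le_ncard (fun A hA => hA.1) (Pool.Agent.H623.TG.Giants_fin ε N))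
  · intro hall ε hε
    have h := Pool.Agent.H623.TG.giants_sub hκ hδ {1} (fun x => 0 < x)
      (fun x y hxy hx => by
        have := Pool.Agent.H623.TG.Cls_sign (s := 1) (Or.inl rfl) (by rw [one_mul]; exact hx) hxy
        rwa [one_mul] at this)
      (fun x hx hx0 => ⟨1, Finset.mem_singleton_self 1, by
        obtain ⟨k, hk⟩ := hall x hx0
        exact ⟨0, k, hk.symm⟩⟩) hε
    exact h
  · intro hn
    push Not at hn
    obtain ⟨x0, hx0, hne⟩ := hn
    have hnot : x0 ∉ Cls 1 := by
      intro h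
      obtain ⟨k, hk⟩ := reach_one h
      exact hne k hk
    have hx01 : x0 ≠ 1 := fun h => hnot (h ▸ ⟨0, 0, rfl⟩)
    obtain ⟨ε, hε, h⟩ := Pool.Agent.H623.TG.giants_ge hκ hδ {x0, 1} (by
      intro x hx
      rw [Finset.mem_insert, Finset.mem_singleton] at hx
      rcases hx with rfl | rfl <;> omega) (by
      intro x hx y hy hxy
      rw [Finset.mem_insert, Finset.mem_singleton] at hx hy
      rcases hx with rfl | rfl <;> rcases hy with rfl | rfl
      · rfl
      · exact absurd (Cls_symm' hxy) hnot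
      · exact absurd hxy hnot
      · rfl) hκ0
    refine ⟨ε, hε, ?_⟩
    filter_upwards [h] with N hN
    rw [Finset.card_pair hx01] at hN
    refine hN.trans (Set.ncard_le_ncard ?_ ((Pool.Agent.H623.TG.Giants_fin ε N).subset fun A hA => hA.1))
    rintro A ⟨hA, x, hx, hxA⟩
    refine ⟨hA, x, hxA, ?_⟩
    rw [Finset.mem_insert, Finset.mem_singleton] at hx
    rcases hx with rfl | rfl <;> omega

end Pool.Agent.Results.MP_d02c56_nt.GiantComponents
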