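import Pool.Agent.H623.RD.H

/-!
# The Collatz classes of `n` and of the integer parts of its real dilates are independent

A set of integers is invariant if it contains `C x` exactly when it contains `x` (for example: the integers
whose trajectory reaches one of the five known cycles, or its complement). For real numbers `Λ > 1` and
`ε > 0` and all large `N`:

1. the invariant sets are orthogonal to ALL the functions of a real dilate, in the mean over the dilates:
   the integral over `1/Λ ≤ t ≤ Λ` of the square of `|∑_{n ≤ N} (1_S(± n) - δ) h(n) e^{i γ n} G(t n)|` is at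
   most `ε N ^ 2`, uniformly in the invariant set `S` (of density `δ`), the bounded multiplicative function
   `h`, the frequency `γ` and the bounded measurable function `G`;
2. for every bounded sequence of weights `w n`, for all the vectors `x` of `k` dilates in `[1/Λ, Λ]` outside a
   set of measure `ε`, and for ALL the systems of invariant sets `S i` at once,
   `∑_{n ≤ N} w n (∏ 1_{S i}(± ⌊x i n⌋) - ∏ δ i)` is at most `ε N`: even on a given sparse set of `n`, the
   classes of `⌊x 1 n⌋, ..., ⌊x k n⌋` are independent;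
3. for such vectors the proportion of the `n ≤ N` for which the trajectories of `n` and of all the
   `⌊x i n⌋` meet is within `ε` of the sum of the powers `δ ^ (k + 1)` of the densities of the classes, which
   is `1` only if there is only one class on the side considered;
4. all the trajectories on one of the sides `s 1, ..., s k` reach a known cycle if and only if, for a set of
   vectors `x` of positive measure and infinitely many `N`, almost every `n ≤ N` has at least one `i` such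
   that the trajectory of `s i ⌊x i n⌋` does.

Author: helper623. The orthogonality of the invariant sets to the multiplicative functions, used here for
the functions `h(n) n ^ {i t}`, is the theorem `joint` of the starting library (Pool.Graph.R_seed8.W41).
-/

set_option autoImplicit false

namespace Pool.Agent.Results.MP_d02c56_nt.RealDilates

open MeasureTheory Finset Filter Topology

/-- The Collatz map on the integers. -/
def C (x : ℤ) : ℤ := if x % 2 = 0 then x / 2 else 3 * x + 1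

/-- The class of `x`: the integers whose trajectory has a term in common with the trajectory of `x`. -/
def Cls (x : ℤ) : Set ℤ := {y | ∃ i j : ℕ, C^[i] x = C^[j] y}

/-- `S` is invariant under the Collatz map and its inverse (a union of classes). -/
def Invariant (S : Set ℤ) : Prop := ∀ x : ℤ, x ∈ S ↔ C x ∈ S

/-- Among the integers of sign `s` the set `S` has natural density `δ`. -/
def HasDensity (s : ℤ) (S : Set ℤ) (δ : ℝ) : Prop :=
  Tendsto (fun N : ℕ => ({n : ℤ | 0 < s * n ∧ s * n ≤ N ∧ n ∈ S}.ncard : ℝ) / N) atTop (𝓝 δ)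

/-- The union of the five known cycles. -/
def Known : Finset ℤ := {1, 4, 2, -1, -2, -5, -14, -7, -20, -10, -17, -50, -25, -74, -37, -110,
  -55, -164, -82, -41, -122, -61, -182, -91, -272, -136, -68, -34, 0}

/-- The trajectory of `x` reaches one of the five known cycles. -/
def Reaches (x : ℤ) : Prop := ∃ k : ℕ, C^[k] x ∈ Known

/-- `h` is a multiplicative function with values in the closed unit disc. -/
def BddMult (h : ℕ → ℂ) : Prop := (∀ n, ‖h n‖ ≤ 1) ∧ ∀ m n : ℕ, Nat.Coprime m n → h (m * n) = h m * h n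

open Classical in
/-- The indicator function of `S`. -/
noncomputable def one (S : Set ℤ) (x : ℤ) : ℂ := if x ∈ S then 1 else 0

/-- The vectors of `k` dilates between `1/Λ` and `Λ`. -/
def Box (Λ : ℝ) (k : ℕ) : Set (Fin k → ℝ) := {x | ∀ i, Λ⁻¹ ≤ x i ∧ x i ≤ Λ}

section transfer
open Pool.Agent.H623 Pool.Agent.W41

theorem box_eq (Λ : ℝ) (k : ℕ) : Box Λ k = Set.univ.pi (fun _ : Fin k => Set.Icc Λ⁻¹ Λ) := by
  ext x
  simp only [Box, Set.mem_ofPred_eq, Set.mem_pi, Set.mem_univ, true_implies, Set.mem_Icc]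

theorem box_meas (Λ : ℝ) (k : ℕ) : MeasurableSet (Box Λ k) := by
  rw [box_eq]
  exact MeasurableSet.univ_pi fun _ => measurableSet_Icc

theorem pi_mu (Λ : ℝ) (k : ℕ) : (Measure.pi fun _ : Fin k => RD.mu Λ) = (volume : Measure (Fin k → ℝ)).restrict (Box Λ k) := by
  rw [box_eq, volume_pi, Measure.restrict_pi_pi]
  rfl

theorem vol_box (Λ : ℝ) (k : ℕ) (P : (Fin k → ℝ) → Prop) :
    volume {x ∈ Box Λ k | P x} = (Measure.pi fun _ : Fin k => RD.mu Λ) {x | P x} := by
  rw [pi_mu, Measure.restrict_apply' (box_meas Λ k)]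
  congr 1
  ext x
  exact and_comm

theorem one_ind (s : ℤ) (S : Set ℤ) (x : ℤ) : one S (s * x) = (ind s S x : ℂ) := by
  classical
  unfold one ind
  by_cases h : s * x ∈ S
  · rw [if_pos h, if_pos h]; simp
  · rw [if_neg h, if_neg h]; simp

theorem closed_iter {S : Finset ℤ} (h : ∀ x ∈ S, C x ∈ S) : ∀ (k : ℕ) (x : ℤ), x ∈ S → C^[k] x ∈ S
  | 0, x, hx => hx
  | k + 1, x, hx => by rw [Function.iterate_succ_apply']; exact h _ (closed_iter h k x hx)

theorem reaches_C (x : ℤ) : Reaches x ↔ Reaches (C x) := by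
  constructor
  · rintro ⟨k, hk⟩
    refine ⟨k, ?_⟩
    rw [← Function.iterate_succ_apply, Function.iterate_succ_apply']
    exact (by decide : ∀ x ∈ Known, C x ∈ Known) _ hk
  · rintro ⟨k, hk⟩
    exact ⟨k + 1, hk⟩

theorem reaches_cls {x y : ℤ} (h : y ∈ Cls x) (hx : Reaches y) : Reaches x := by
  obtain ⟨i, j, e⟩ := h
  obtain ⟨k, hk⟩ := hx
  refine ⟨k + i, ?_⟩
  rw [Function.iterate_add_apply, e, ← Function.iterate_add_apply, add_comm, Function.iterate_add_apply]
  exact closed_iter (by decide) j _ hk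

theorem reaches_zero : Reaches 0 := ⟨0, by decide⟩

end transfer

/-- The integrals and measures are with respect to the Lebesgue measure; `volume` of a set of vectors which
may be not measurable is the outer measure. -/
theorem result :
    -- 1. orthogonality to all the functions of a dilate, in the mean over the dilates
    (∀ Λ ε : ℝ, 1 < Λ → 0 < ε → ∃ N₀ : ℕ, ∀ N : ℕ, N₀ ≤ N → ∀ s : ℤ, s = 1 ∨ s = -1 →
      ∀ S : Set ℤ, Invariant S → ∀ δ : ℝ, HasDensity s S δ → ∀ h : ℕ → ℂ, BddMult h → ∀ γ : ℝ,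
      ∀ G : ℝ → ℂ, Measurable G → (∀ x, ‖G x‖ ≤ 1) →
        ∫ t in Λ⁻¹..Λ, ‖∑ n ∈ Icc 1 N, (one S (s * (n : ℤ)) - δ) * h n *
          Complex.exp ((γ * n : ℝ) * Complex.I) * G (t * n)‖ ^ 2 ≤ ε * N ^ 2) ∧
    -- 2. independence along several dilates, with weights, for all the invariant sets at once
    (∀ (k : ℕ) (Λ ε : ℝ), 1 < Λ → 0 < ε → ∃ N₀ : ℕ, ∀ N : ℕ, N₀ ≤ N → ∀ w : ℕ → ℂ, (∀ n, ‖w n‖ ≤ 1) →
      volume {x ∈ Box Λ k | ∃ (s : Fin k → ℤ) (S : Fin k → Set ℤ) (δ : Fin k → ℝ),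
        (∀ i, (s i = 1 ∨ s i = -1) ∧ Invariant (S i) ∧ HasDensity (s i) (S i) (δ i)) ∧
        ε * N < ‖∑ n ∈ Icc 1 N, w n * (∏ i, one (S i) (s i * ⌊x i * n⌋) - ∏ i, (δ i : ℂ))‖}
        ≤ ENNReal.ofReal ε) ∧
    -- 3. the proportion of the `n` whose trajectory meets those of the integer parts of the dilates
    (∀ s : ℤ, s = 1 ∨ s = -1 → ∃ D : Set ℤ → ℝ,
      (∀ x : ℤ, 0 < s * x → 0 < D (Cls x) ∧ HasDensity s (Cls x) (D (Cls x))) ∧
      ∀ k : ℕ, ∃ ρ : ℝ, 0 < ρ ∧ ρ ≤ 1 ∧
        HasSum (fun A : {A : Set ℤ // ∃ x : ℤ, 0 < s * x ∧ A = Cls x} => D A ^ (k + 1)) ρ ∧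
        (1 ≤ k → (ρ = 1 ↔ ∀ x y : ℤ, 0 < s * x → 0 < s * y → y ∈ Cls x)) ∧
        ∀ Λ : ℝ, 1 < Λ → ∀ ε : ℝ, 0 < ε → ∃ N₀ : ℕ, ∀ N : ℕ, N₀ ≤ N →
          volume {x ∈ Box Λ k | ε * N <
            |({n : ℕ | 1 ≤ n ∧ n ≤ N ∧ ∀ i, s * ⌊x i * n⌋ ∈ Cls (s * n)}.ncard : ℝ) - ρ * N|}
            ≤ ENNReal.ofReal ε) ∧
    -- 4. the question Q1 on one of several sides
    (∀ (k : ℕ) (s : Fin k → ℤ), (∀ i, s i = 1 ∨ s i = -1) →
      ((∃ i, ∀ x : ℤ, 0 < s i * x → Reaches x) ↔
        ∃ Λ c : ℝ, 1 < Λ ∧ 0 < c ∧ ∀ η : ℝ, 0 < η → ∃ᶠ N : ℕ in atTop,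
          ENNReal.ofReal c ≤ volume {x ∈ Box Λ k |
            ({n : ℕ | 1 ≤ n ∧ n ≤ N ∧ ∀ i, ¬ Reaches (s i * ⌊x i * n⌋)}.ncard : ℝ) ≤ η * N})) := by
  classical
  have P2 : ∀ (k : ℕ) (Λ ε : ℝ), 1 < Λ → 0 < ε → ∃ N₀ : ℕ, ∀ N : ℕ, N₀ ≤ N → ∀ w : ℕ → ℂ, (∀ n, ‖w n‖ ≤ 1) →
      volume {x ∈ Box Λ k | ∃ (s : Fin k → ℤ) (S : Fin k → Set ℤ) (δ : Fin k → ℝ),
        (∀ i, (s i = 1 ∨ s i = -1) ∧ Invariant (S i) ∧ HasDensity (s i) (S i) (δ i)) ∧
        ε * N < ‖∑ n ∈ Icc 1 N, w n * (∏ i, one (S i) (s i * ⌊x i * n⌋) - ∏ i, (δ i : ℂ))‖}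
        ≤ ENNReal.ofReal ε := by
    intro k Λ ε hΛ hε
    obtain ⟨N0, hN0, H⟩ := Pool.Agent.H623.RD.all_sets hΛ k hε
    refine ⟨N0, fun N hN w hw => ?_⟩
    rw [vol_box]
    refine le_trans (measure_mono ?_) (H N hN w hw)
    rintro x ⟨s, S, δ, h, hlt⟩
    refine ⟨fun i => (s i, S i, δ i), fun i => ⟨(h i).1, Pool.Agent.H623.TG.inv_Td (h i).2.1,
      Pool.Agent.H623.TG.HasD_HD (h i).1 (h i).2.1 (h i).2.2⟩, ?_⟩
    refine lt_of_lt_of_eq hlt ?_
    unfold Pool.Agent.H623.RD.DD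
    congr 1
    apply sum_congr rfl
    intro n _
    congr 2
    apply prod_congr rfl
    intro i _
    exact one_ind _ _ _
  refine ⟨?_, P2, ?_, ?_⟩
  · intro Λ ε hΛ hε
    obtain ⟨N1, hN1, H1⟩ := Pool.Agent.H623.RD.main_lin (s := 1) (Or.inl rfl) hΛ hε
    obtain ⟨N2, hN2, H2⟩ := Pool.Agent.H623.RD.main_lin (s := -1) (Or.inr rfl) hΛ hε
    refine ⟨max N1 N2, fun N hN s hs S hS δ hδ h hh γ G hG hG1 => ?_⟩
    have hD := Pool.Agent.H623.TG.HasD_HD hs hS hδ
    have hI := Pool.Agent.H623.TG.inv_Td hS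
    have h1 : ∫ l in Λ⁻¹..Λ, ‖∑ n ∈ Icc 1 N, Pool.Agent.W41.MU.tw (Pool.Agent.W41.FU.bal s S δ) γ (n : ℤ) * h n
        * G (l * n)‖ ^ 2 ≤ ε * N ^ 2 := by
      rcases hs with rfl | rfl
      · exact H1 N ((le_max_left _ _).trans hN) S hI δ hD γ h hh G hG hG1
      · exact H2 N ((le_max_right _ _).trans hN) S hI δ hD γ h hh G hG hG1
    refine le_trans (le_of_eq ?_) h1
    congr 1
    ext t
    congr 2
    apply sum_congr rfl
    intro n _
    unfold Pool.Agent.W41.MU.tw Pool.Agent.W41.FU.bal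
    rw [one_ind]
    push_cast
    ring
  · intro s hs
    obtain ⟨D, hD, hD1⟩ := Pool.Agent.H623.RD.classes hs
    refine ⟨D, ?_, fun k => ?_⟩
    · intro x hx
      obtain ⟨h1, -, h2⟩ := hD ⟨Cls x, x, hx, rfl⟩
      exact ⟨h1, Pool.Agent.H499R2.ND.HD_ncard hs h2⟩
    · obtain ⟨ρ, h0, h1, h2, h3⟩ := Pool.Agent.H623.RD.meet hs hD hD1 k
      refine ⟨ρ, h0, h1, h2, fun hk => ⟨?_, ?_⟩, ?_⟩
      · rintro rfl x y hx hy
        have := Pool.Agent.H623.RD.rho_one hD hD1 hk h2 ⟨Cls x, x, hx, rfl⟩ ⟨Cls y, y, hy, rfl⟩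
        have e : Cls x = Cls y := congrArg Subtype.val this
        rw [e]
        exact Pool.Agent.H623.TG.Cls_self y
      · intro hall
        have hx : 0 < s * s := by rcases hs with rfl | rfl <;> norm_num
        set A0 : Pool.Agent.H623.RD.CL s := ⟨Cls s, s, hx, rfl⟩ with hA0
        have huniq : ∀ A : Pool.Agent.H623.RD.CL s, A = A0 := by
          rintro ⟨A, x, hx', rfl⟩
          apply Subtype.ext
          exact (Pool.Agent.H623.TG.Cls_eq (hall x s hx' hx)).symm
        have e1 : ∀ f : Pool.Agent.H623.RD.CL s → ℝ, HasSum f (f A0) := fun f =>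
          hasSum_single A0 fun A hA => absurd (huniq A) hA
        have e2 := (e1 (fun A => D A)).unique hD1
        have e3 := (e1 (fun A => D A ^ (k + 1))).unique h2
        rw [← e3]
        show D A0 ^ (k + 1) = 1
        rw [show D A0 = 1 from e2, one_pow]
      · intro Λ hΛ ε hε
        obtain ⟨N0, hN0, H⟩ := h3 Λ hΛ ε hε
        refine ⟨N0, fun N hN => ?_⟩
        rw [vol_box]
        refine le_trans (measure_mono ?_) (H N hN)
        intro x hx
        have e : (({n : ℕ | 1 ≤ n ∧ n ≤ N ∧ ∀ i, s * ⌊x i * n⌋ ∈ Cls (s * n)}.ncard : ℝ))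
            = ∑ n ∈ Icc 1 N, Pool.Agent.H623.RD.mt s x n := by
          have e1 : {n : ℕ | 1 ≤ n ∧ n ≤ N ∧ ∀ i, s * ⌊x i * n⌋ ∈ Cls (s * n)}
              = ((Icc 1 N).filter (fun n : ℕ => ∀ i, s * ⌊x i * n⌋ ∈ Cls (s * n)) : Finset ℕ) := by
            ext n
            simp only [Set.mem_ofPred_eq, coe_filter, mem_Icc, and_assoc]
          rw [e1, Set.ncard_coe_finset, card_filter]
          push_cast
          apply sum_congr rfl
          intro n _
          unfold Pool.Agent.H623.RD.mt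
          congr
        show ε * N < |∑ n ∈ Icc 1 N, Pool.Agent.H623.RD.mt s x n - ρ * N|
        rw [← e]
        exact hx
  · intro k s hs
    have hcount : ∀ (x : Fin k → ℝ) (N : ℕ), (({n : ℕ | 1 ≤ n ∧ n ≤ N ∧ ∀ i, ¬ Reaches (s i * ⌊x i * n⌋)}.ncard : ℝ) : ℂ)
        = ∑ n ∈ Icc 1 N, ∏ i, one {y | ¬ Reaches y} (s i * ⌊x i * n⌋) := by
      intro x N
      have e1 : {n : ℕ | 1 ≤ n ∧ n ≤ N ∧ ∀ i, ¬ Reaches (s i * ⌊x i * n⌋)}
          = ((Icc 1 N).filter (fun n : ℕ => ∀ i, ¬ Reaches (s i * ⌊x i * n⌋)) : Finset ℕ) := by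
        ext n
        simp only [Set.mem_ofPred_eq, coe_filter, mem_Icc, and_assoc]
      rw [e1, Set.ncard_coe_finset, card_filter]
      push_cast
      apply sum_congr rfl
      intro n _
      by_cases h : ∀ i, ¬ Reaches (s i * ⌊x i * n⌋)
      · rw [if_pos h]
        symm
        apply prod_eq_one
        intro i _
        unfold one
        rw [if_pos (show _ ∈ {y | ¬ Reaches y} from h i)]
      · rw [if_neg h]
        push Not at h
        obtain ⟨i, hi⟩ := h
        symm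
        apply prod_eq_zero (mem_univ i)
        unfold one
        rw [if_neg]
        exact fun h => h hi
    constructor
    · rintro ⟨i, hi⟩
      refine ⟨2, (2 - 2⁻¹) ^ k, by norm_num, by norm_num, fun η hη => ?_⟩
      refine (eventually_atTop.2 ⟨0, fun N _ => ?_⟩).frequently
      have e : {x ∈ Box 2 k | ({n : ℕ | 1 ≤ n ∧ n ≤ N ∧ ∀ i, ¬ Reaches (s i * ⌊x i * n⌋)}.ncard : ℝ) ≤ η * N} = Box 2 k := by
        ext x
        constructor
        · exact fun h => h.1
        · intro hx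
          refine ⟨hx, ?_⟩
          have e2 : {n : ℕ | 1 ≤ n ∧ n ≤ N ∧ ∀ i, ¬ Reaches (s i * ⌊x i * n⌋)} = ∅ := by
            ext n
            simp only [Set.mem_ofPred_eq, Set.mem_empty_iff_false, iff_false, not_and]
            intro _ _ hall
            apply hall i
            have h0 : 0 ≤ ⌊x i * (n : ℝ)⌋ := Int.floor_nonneg.2 (by
              have := (hx i).1
              have h2 : (0 : ℝ) < 2⁻¹ := by norm_num
              have h3 : 0 < x i := by linarith
              positivity)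
            rcases h0.eq_or_lt with h | h
            · rw [← h, mul_zero]; exact reaches_zero
            · apply hi
              rcases hs i with h' | h' <;> rw [h'] <;> omega
          rw [e2, Set.ncard_empty]
          push_cast
          positivity
      rw [e, box_eq, volume_pi_pi]
      simp only [Real.volume_Icc, prod_const, card_univ, Fintype.card_fin]
      rw [← ENNReal.ofReal_pow (by norm_num)]
    · rintro ⟨Λ, c, hΛ, hc, H⟩
      have hinv : Invariant {y | ¬ Reaches y} := fun x => not_congr (reaches_C x)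
      have hd : ∀ i, ∃ u : ℝ, HasDensity (s i) {y | ¬ Reaches y} u := fun i => by
        obtain ⟨u, -, hu⟩ := Pool.Agent.H623.TG.dens_ex (hs i) hinv
        exact ⟨u, hu⟩
      choose u hu using hd
      have hu0 : ∀ i, 0 ≤ u i := fun i => ge_of_tendsto' (hu i) fun N => by positivity
      have hprod : ∏ i, u i = 0 := by
        by_contra hne
        have hp : 0 < ∏ i, u i := lt_of_le_of_ne (prod_nonneg fun i _ => hu0 i) (Ne.symm hne)
        set p := ∏ i, u i with hpdef
        have hε : 0 < min (p / 4) (c / 2) := lt_min (by positivity) (by positivity)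
        obtain ⟨N0, HN⟩ := P2 k Λ (min (p / 4) (c / 2)) hΛ hε
        obtain ⟨N, hN1, hN2⟩ := ((H (p / 4) (by positivity)).and_eventually (eventually_ge_atTop (N0 + 1))).exists
        have h1 := HN N (by omega) (fun _ => 1) (fun _ => by simp)
        have hlt : volume {x ∈ Box Λ k | ∃ (s : Fin k → ℤ) (S : Fin k → Set ℤ) (δ : Fin k → ℝ),
            (∀ i, (s i = 1 ∨ s i = -1) ∧ Invariant (S i) ∧ HasDensity (s i) (S i) (δ i)) ∧
            min (p / 4) (c / 2) * N < ‖∑ n ∈ Icc 1 N, (1 : ℂ) * (∏ i, one (S i) (s i * ⌊x i * n⌋) - ∏ i, (δ i : ℂ))‖}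
            < volume {x ∈ Box Λ k | ({n : ℕ | 1 ≤ n ∧ n ≤ N ∧ ∀ i, ¬ Reaches (s i * ⌊x i * n⌋)}.ncard : ℝ) ≤ p / 4 * N} := by
          refine lt_of_le_of_lt h1 (lt_of_lt_of_le ?_ hN1)
          rw [ENNReal.ofReal_lt_ofReal_iff hc]
          exact lt_of_le_of_lt (min_le_right _ _) (by linarith)
        have hex : ∃ x ∈ {x ∈ Box Λ k | ({n : ℕ | 1 ≤ n ∧ n ≤ N ∧ ∀ i, ¬ Reaches (s i * ⌊x i * n⌋)}.ncard : ℝ) ≤ p / 4 * N},
            x ∉ {x ∈ Box Λ k | ∃ (s : Fin k → ℤ) (S : Fin k → Set ℤ) (δ : Fin k → ℝ),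
            (∀ i, (s i = 1 ∨ s i = -1) ∧ Invariant (S i) ∧ HasDensity (s i) (S i) (δ i)) ∧
            min (p / 4) (c / 2) * N < ‖∑ n ∈ Icc 1 N, (1 : ℂ) * (∏ i, one (S i) (s i * ⌊x i * n⌋) - ∏ i, (δ i : ℂ))‖} := by
          by_contra hcon
          push Not at hcon
          exact absurd (measure_mono hcon) (not_le.2 hlt)
        obtain ⟨x, hx1, hx2⟩ := hex
        have hx3 : ‖∑ n ∈ Icc 1 N, (1 : ℂ) * (∏ i, one {y | ¬ Reaches y} (s i * ⌊x i * n⌋) - ∏ i, (u i : ℂ))‖
            ≤ min (p / 4) (c / 2) * N := by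
          by_contra hcon
          exact hx2 ⟨hx1.1, s, fun _ => {y | ¬ Reaches y}, u, fun i => ⟨hs i, hinv, hu i⟩, not_le.1 hcon⟩
        have e : ∑ n ∈ Icc 1 N, (1 : ℂ) * (∏ i, one {y | ¬ Reaches y} (s i * ⌊x i * n⌋) - ∏ i, (u i : ℂ))
            = ((({n : ℕ | 1 ≤ n ∧ n ≤ N ∧ ∀ i, ¬ Reaches (s i * ⌊x i * n⌋)}.ncard : ℝ) - p * N : ℝ) : ℂ) := by
          push_cast
          rw [show (({n : ℕ | 1 ≤ n ∧ n ≤ N ∧ ∀ i, ¬ Reaches (s i * ⌊x i * n⌋)}.ncard : ℕ) : ℂ)
            = ∑ n ∈ Icc 1 N, ∏ i, one {y | ¬ Reaches y} (s i * ⌊x i * n⌋) from by rw [← hcount x N]; push_cast; rfl]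
          simp only [one_mul]
          rw [sum_sub_distrib, sum_const, Nat.card_Icc, Nat.add_sub_cancel, nsmul_eq_mul, hpdef]
          push_cast
          ring
        rw [e, Complex.norm_real, Real.norm_eq_abs] at hx3
        have h4 := (abs_le.1 hx3).1
        have h5 : min (p / 4) (c / 2) * N ≤ p / 4 * N := mul_le_mul_of_nonneg_right (min_le_left _ _) (Nat.cast_nonneg _)
        have h6 : (0 : ℝ) < N := by exact_mod_cast (by omega : 0 < N)
        have h7 := hx1.2
        nlinarith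
      obtain ⟨i, -, hi⟩ := prod_eq_zero_iff.1 hprod
      refine ⟨i, fun x hx => ?_⟩
      by_contra hnx
      obtain ⟨δ, h1, h2⟩ := Pool.Agent.H623.TG.dens_ex (hs i) (Pool.Agent.H623.TG.Cls_inv x)
      have hpos := Pool.Agent.H623.TG.cls_pos (hs i) hx h1
      have h3 := Pool.Agent.H623.TG.HasD_HD (hs i) hinv (hu i)
      have h4 : δ ≤ u i := by
        refine le_of_tendsto_of_tendsto (Pool.Agent.W41.cF_tendsto (hs i) h1) (Pool.Agent.W41.cF_tendsto (hs i) h3)
          (Eventually.of_forall fun N => ?_)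
        simp only
        apply div_le_div_of_nonneg_right _ (Nat.cast_nonneg _)
        exact_mod_cast Pool.Agent.H623.TG.cF_mono (N := N) (fun n _ _ hn => by
          intro hr
          exact hnx (reaches_cls hn hr))
      rw [hi] at h4
      linarith

end Pool.Agent.Results.MP_d02c56_nt.RealDilates
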